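import Pool.Agent.P.MP_78a647_lc.Full.Defs

/-!
Basic facts on sections, anchors and sign changes.
-/

namespace Pool.Agent.P.MP_78a647_lc.Full

open Set

theorem mn_spec {α : Type} [LinearOrder α] [WellFoundedLT α] {A : Set α} (d : α)
    (h : A.Nonempty) : mn A d ∈ A ∧ ∀ z ∈ A, mn A d ≤ z := by
  unfold mn
  rw [dif_pos h]
  exact ⟨wellFounded_lt.min_mem A h, fun z hz => not_lt.1 (wellFounded_lt.not_lt_min A hz)⟩

theorem mn_eq {α : Type} [LinearOrder α] [WellFoundedLT α] {A : Set α} (d : α) {z : α}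
    (h : z ∈ A) (h2 : ∀ y ∈ A, z ≤ y) : mn A d = z :=
  le_antisymm ((mn_spec d ⟨z, h⟩).2 z h) (h2 _ (mn_spec d ⟨z, h⟩).1)

theorem chg_self (f : ℕ → Bool) (a : ℕ) : chg f a a = 0 := by simp [chg]

theorem chg_add (f : ℕ → Bool) {a b c : ℕ} (h1 : a ≤ b) (h2 : b ≤ c) :
    chg f a c = chg f a b + chg f b c := by
  unfold chg
  rw [← Finset.Ico_union_Ico_eq_Ico h1 h2, Finset.filter_union, Finset.card_union_of_disjoint]
  exact Finset.disjoint_filter_filter (Finset.Ico_disjoint_Ico_consecutive a b c)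

theorem chg_xor {f g : ℕ → Bool} {a b : ℕ} (e : Bool)
    (h : ∀ j, a ≤ j → j ≤ b → f j = xor (g j) e) : chg f a b = chg g a b := by
  unfold chg
  congr 1
  refine Finset.filter_congr fun j hj => ?_
  rw [Finset.mem_Ico] at hj
  rw [h j hj.1 hj.2.le, h (j + 1) (by omega) (by omega)]
  cases g j <;> cases g (j + 1) <;> cases e <;> simp

theorem chg_congr {f g : ℕ → Bool} {a b : ℕ} (h : ∀ j, a ≤ j → j ≤ b → f j = g j) :
    chg f a b = chg g a b :=
  chg_xor false fun j h1 h2 => by simp [h j h1 h2]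

theorem chg_succ (f : ℕ → Bool) (t : ℕ) : chg f t (t + 1) = (xor (f t) (f (t + 1))).toNat := by
  unfold chg
  rw [Nat.Ico_succ_singleton, Finset.filter_singleton]
  cases f t <;> cases f (t + 1) <;> simp

theorem chg_block (g g' : ℕ → Bool) {a t b : ℕ} (h1 : a ≤ t) (h2 : t < b) :
    ∃ (c : ℕ) (β : Bool), ∀ (o e : Bool) (f : ℕ → Bool),
      (∀ j, a ≤ j → j ≤ t → f j = xor (g j) o) → (∀ j, t < j → j ≤ b → f j = xor (g' j) e) →
      chg f a b = c + (xor β (xor o e)).toNat := by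
  refine ⟨chg g a t + chg g' (t + 1) b, xor (g t) (g' (t + 1)), fun o e f h3 h4 => ?_⟩
  rw [chg_add f h1 h2.le, chg_add f (b := t + 1) (Nat.le_succ t) h2, chg_xor o h3,
    chg_xor e (g := g') (a := t + 1) fun j h5 h6 => h4 j h5 h6, chg_succ, h3 t h1 le_rfl,
    h4 (t + 1) (Nat.lt_succ_self t) h2]
  have : xor (xor (g t) o) (xor (g' (t + 1)) e) = xor (xor (g t) (g' (t + 1))) (xor o e) := by
    cases g t <;> cases g' (t + 1) <;> cases o <;> cases e <;> rfl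
  rw [this]
  omega

namespace Rh

variable {X : Rh}

theorem R_refl (l : ℕ) (a : W1) : X.R l a a := ⟨le_rfl, by simp [X.refl]⟩

theorem R.trans {l : ℕ} {a b c : W1} (h1 : X.R l a b) (h2 : X.R l b c) : X.R l a c :=
  ⟨h1.1.trans h2.1, (X.tri1 a b c h1.1 h2.1).trans (max_le h1.2 h2.2)⟩

theorem R.tri {l : ℕ} {a b c : W1} (h1 : X.R l a c) (h2 : X.R l b c) (h : a ≤ b) : X.R l a b :=
  ⟨h, (X.tri2 a b c h h2.1).trans (max_le h1.2 h2.2)⟩

theorem R.mono {l l' : ℕ} {a b : W1} (h1 : X.R l a b) (h : l ≤ l') : X.R l' a b :=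
  ⟨h1.1, h1.2.trans h⟩

theorem R_rho {a b : W1} (h : a ≤ b) : X.R (X.ρ a b) a b := ⟨h, le_rfl⟩

theorem lt_rho {l : ℕ} {a b : W1} (h : a ≤ b) (h2 : ¬ X.R l a b) : l < X.ρ a b :=
  not_le.1 fun h3 => h2 ⟨h, h3⟩

theorem not_R {l : ℕ} {a b : W1} (h : l < X.ρ a b) : ¬ X.R l a b := fun h2 => not_le.2 h h2.2

theorem mem_cl {l : ℕ} {z c : W1} : z ∈ X.cl l c ↔ X.R l z c := by
  simp [cl, R]

theorem nrm_le (l : ℕ) (z : W1) : X.nrm l z ≤ X.S l := by
  have := X.card l z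
  rwa [Set.ncard_eq_toFinset_card _ (X.fin l z)] at this

theorem nrm_lt {l : ℕ} {a b : W1} (h : X.R l a b) (h2 : a < b) : X.nrm l a < X.nrm l b := by
  refine Finset.card_lt_card ⟨fun z hz => mem_cl.2 ((mem_cl.1 hz).trans h), fun h3 => ?_⟩
  exact absurd (mem_cl.1 (h3 (mem_cl.2 (R_refl l b)))).1 (not_le.2 h2)

theorem nrm_inj {l : ℕ} {a b c : W1} (h1 : X.R l a c) (h2 : X.R l b c)
    (h : X.nrm l a = X.nrm l b) : a = b := by
  rcases lt_trichotomy a b with h3 | h3 | h3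
  · exact absurd h (nrm_lt (h1.tri h2 h3.le) h3).ne
  · exact h3
  · exact absurd h (nrm_lt (h2.tri h1 h3.le) h3).ne'

/-- A level above finitely many values of `ρ`. -/
theorem exists_level {ι : Type} [Finite ι] (a : ι → W1) (c : W1) (h : ∀ i, a i ≤ c) (l0 : ℕ) :
    ∃ l, l0 < l ∧ ∀ i, X.R l (a i) c := by
  obtain ⟨m, hm⟩ := (finite_range fun i => X.ρ (a i) c).bddAbove
  exact ⟨max m (l0 + 1), by omega, fun i => ⟨h i, (hm ⟨i, rfl⟩).trans (le_max_left _ _)⟩⟩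

theorem anc_spec {j : ℕ} {x y : W1} (h : ¬ X.R j x y) :
    X.R j (X.anc j x y) x ∧ ¬ X.R j (X.anc j x y) y ∧
      ∀ z, X.R j z x → ¬ X.R j z y → X.anc j x y ≤ z := by
  have := mn_spec (A := {z | X.R j z x ∧ ¬ X.R j z y}) x ⟨x, R_refl j x, h⟩
  exact ⟨this.1.1, this.1.2, fun z h1 h2 => this.2 z ⟨h1, h2⟩⟩

theorem anc_eq {j : ℕ} {x y z : W1} (h1 : X.R j z x) (h2 : ¬ X.R j z y)
    (h3 : ∀ z', X.R j z' x → ¬ X.R j z' y → z ≤ z') : X.anc j x y = z :=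
  mn_eq x ⟨h1, h2⟩ fun z' hz' => h3 z' hz'.1 hz'.2

theorem not_R_of_lt {j : ℕ} {x y : W1} (h : x < y) : ¬ X.R j y x := fun h2 => not_le.2 h h2.1

/-- Anchors do not change if both points are moved up inside their sections. -/
theorem blur {j : ℕ} {x x' y y' : W1} (hx : X.R j x x') (hy : X.R j y y') (h : x' < y)
    (hn : ¬ X.R j x y) :
    ¬ X.R j x' y' ∧ X.anc j x y = X.anc j x' y' ∧ X.anc j y x = X.anc j y' x' := by
  have h1 : ¬ X.R j x y' := fun h2 => hn (h2.tri hy (hx.1.trans h.le))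
  have h2 : ¬ X.R j x' y' := fun h2 => h1 (hx.trans h2)
  obtain ⟨a1, a2, a3⟩ := anc_spec h2
  obtain ⟨b1, b2, b3⟩ := anc_spec (X := X) (j := j) (not_R_of_lt (h.trans_le hy.1))
  refine ⟨h2, anc_eq (a1.tri hx (a3 x hx h1)) (fun h3 => a2 (h3.trans hy)) fun z c1 c2 => ?_,
    anc_eq (b1.tri hy (b3 y hy (not_R_of_lt h))) (fun h3 => b2 (h3.trans hx)) fun z c1 c2 => ?_⟩
  · exact a3 z (c1.trans hx) fun h3 => c2 (h3.tri hy (c1.1.trans (hx.1.trans h.le)))
  · refine b3 z (c1.trans hy) fun h3 => ?_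
    rcases le_total z x with h4 | h4
    · exact c2 (h3.tri hx h4)
    · exact hn ((hx.tri h3 h4).trans c1)

theorem s_blur {j : ℕ} {x x' y y' : W1} (hx : X.R j x x') (hy : X.R j y y') (h : x' < y)
    (hn : ¬ X.R j x y) : X.s x y j = X.s x' y' j := by
  obtain ⟨-, h1, h2⟩ := blur hx hy h hn
  unfold s
  rw [h1, h2]

theorem rho_blur {j : ℕ} {x y y' : W1} (hy : X.R j y y') (h : x ≤ y) (hn : ¬ X.R j x y) :
    X.ρ x y = X.ρ x y' := by
  have h1 := lt_rho h hn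
  have h2 := X.tri1 x y y' h hy.1
  have h3 := X.tri2 x y y' h hy.1
  have h4 := hy.2
  omega

end Rh

end Pool.Agent.P.MP_78a647_lc.Full
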