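import Pool.Agent.P.MP_78a647_lc.Full.Basic

/-!
A mixed radix code in which any one digit can be prescribed while the higher ones vanish.
-/

namespace Pool.Agent.P.MP_78a647_lc.Full

open Set

/-- The place values of the mixed radix system with digit bounds `D`. -/
def codeM (D : ℕ → ℕ) : ℕ → ℕ
  | 0 => 1
  | l + 1 => codeM D l * D l

theorem codeM_dvd (D : ℕ → ℕ) {l l1 : ℕ} (h : l ≤ l1) : codeM D l ∣ codeM D l1 := by
  induction h with
  | refl => exact dvd_rfl
  | step _ ih => exact ih.mul_right _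

theorem code_per (D : ℕ → ℕ) {l l1 n n' : ℕ} (h : l < l1) (e : n ≡ n' [MOD codeM D l1]) :
    n / codeM D l % D l = n' / codeM D l % D l := by
  have e' : n % (codeM D l * D l) = n' % (codeM D l * D l) := e.of_dvd (codeM_dvd D h)
  rw [← Nat.mod_mul_right_div_self, ← Nat.mod_mul_right_div_self, e']

theorem code_hit (D d c : ℕ → ℕ) (hd : ∀ l, d l < D l) (L : ℕ) :
    ∃ t < codeM D L, ∀ l < L, (c l + t) / codeM D l % D l = d l := by
  induction L with
  | zero => exact ⟨0, Nat.one_pos, fun l hl => absurd hl (Nat.not_lt_zero l)⟩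
  | succ L ih =>
    obtain ⟨t, ht, h⟩ := ih
    have hD : 0 < D L := (Nat.zero_le _).trans_lt (hd L)
    have hM : 0 < codeM D L := (Nat.zero_le _).trans_lt ht
    obtain ⟨s, hs, e⟩ : ∃ s < D L, ((c L + t) / codeM D L + s) % D L = d L := by
      refine ⟨(d L + (D L - 1) * ((c L + t) / codeM D L)) % D L, Nat.mod_lt _ hD, ?_⟩
      generalize (c L + t) / codeM D L = q
      obtain ⟨E, hE⟩ : ∃ E, D L = E + 1 := ⟨D L - 1, by omega⟩
      rw [Nat.add_mod_mod, show q + (d L + (D L - 1) * q) = d L + D L * q by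
        rw [hE, Nat.add_sub_cancel]; ring, Nat.add_mul_mod_self_left, Nat.mod_eq_of_lt (hd L)]
    refine ⟨t + codeM D L * s, ?_, fun l hl => ?_⟩
    · calc t + codeM D L * s < codeM D L * (s + 1) := by rw [mul_add_one]; omega
        _ ≤ codeM D L * D L := Nat.mul_le_mul_left _ hs
    · rcases Nat.lt_succ_iff_lt_or_eq.1 hl with k | rfl
      · rw [← h l k]
        refine code_per D k ?_
        rw [← add_assoc]
        exact Nat.add_mul_mod_self_left _ _ _
      · rw [← add_assoc, Nat.add_mul_div_left _ _ hM, e]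

theorem exists_code (S : ℕ → ℕ) : ∃ (cd : ℕ → ℕ → Option Nm) (M : ℕ → ℕ),
    (∀ l l1 n n', l < l1 → n ≡ n' [MOD M l1] → cd l n = cd l n') ∧
    (∀ l0 l1 (c : ℕ → ℕ) (N : Nm), l0 < l1 →
      N.1 ⊆ Finset.range (S l0 + 1) ×ˢ Finset.range (l0 + 1) →
      ∃ t < M l1, cd l0 (c l0 + t) = some N ∧ ∀ l, l0 < l → l < l1 → cd l (c l + t) = none) := by
  let D : ℕ → ℕ := fun l => 2 + ((Finset.range (S l + 1) ×ˢ Finset.range (l + 1)).powerset ×ˢ
    (Finset.univ : Finset Bool)).sup fun N : Nm => Encodable.encode N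
  refine ⟨fun l n => if n / codeM D l % D l = 0 then none
    else Encodable.decode (n / codeM D l % D l - 1), codeM D, fun l l1 n n' h e => ?_,
    fun l0 l1 c N h hN => ?_⟩
  · simp only [code_per D h e]
  · obtain ⟨t, ht, e⟩ := code_hit D (fun l => if l = l0 then Encodable.encode N + 1 else 0) c
      (fun l => by
        split_ifs with k
        · subst k
          have := Finset.le_sup (f := fun N : Nm => Encodable.encode N)
            (Finset.mem_product.2 ⟨Finset.mem_powerset.2 hN, Finset.mem_univ N.2⟩ : N ∈ _)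
          simp only [D]
          omega
        · simp only [D]
          omega) l1
    refine ⟨t, ht, ?_, fun l h1 h2 => ?_⟩
    · simp [e l0 h]
    · simp [e l h2, h1.ne']

end Pool.Agent.P.MP_78a647_lc.Full
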