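import Pool.Agent.P.MP_78a647_lc.Rho

/-!
Definitions for the proof that productivity of the countable chain condition gives
Martin's axiom for `ℵ₁` dense sets.
-/

namespace Pool.Agent.P.MP_78a647_lc.Full

open Set

/-- Names that can be coded by a digit. -/
abbrev Nm : Type := Finset (ℕ × ℕ) × Bool

/-- Fixed combinatorial data: a subadditive `ρ` with uniformly bounded finite sections, a locally
determined tournament `sg`, and a mixed radix code `cd`. -/
structure Rh where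
  ρ : W1 → W1 → ℕ
  S : ℕ → ℕ
  sg : W1 → W1 → Bool
  lab : W1 → W1 → ℕ
  cd : ℕ → ℕ → Option Nm
  M : ℕ → ℕ
  refl : ∀ a, ρ a a = 0
  tri1 : ∀ a b c, a ≤ b → b ≤ c → ρ a c ≤ max (ρ a b) (ρ b c)
  tri2 : ∀ a b c, a ≤ b → b ≤ c → ρ a b ≤ max (ρ a c) (ρ b c)
  fin : ∀ l c, {z | z ≤ c ∧ ρ z c ≤ l}.Finite
  card : ∀ l c, {z | z ≤ c ∧ ρ z c ≤ l}.ncard ≤ S l
  anti : ∀ x y, x ≠ y → sg y x = !sg x y
  loc : ∀ x y x' y', x ≠ y → x' ≠ y' → lab x y = lab x' y' → sg x y' = sg x y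
  per : ∀ l l1 n n', l < l1 → n ≡ n' [MOD M l1] → cd l n = cd l n'
  hit : ∀ l0 l1 (c : ℕ → ℕ) (N : Nm), l0 < l1 →
    N.1 ⊆ Finset.range (S l0 + 1) ×ˢ Finset.range (l0 + 1) →
    ∃ t < M l1, cd l0 (c l0 + t) = some N ∧ ∀ l, l0 < l → l < l1 → cd l (c l + t) = none

open Classical in
/-- The least element of `A`, or `d` if `A` is empty. -/
noncomputable def mn {α : Type} [LinearOrder α] [WellFoundedLT α] (A : Set α) (d : α) : α :=
  if h : A.Nonempty then wellFounded_lt.min A h else d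

/-- The number of changes of `f` on the interval from `a` to `b`. -/
def chg (f : ℕ → Bool) (a b : ℕ) : ℕ :=
  ((Finset.Ico a b).filter fun j => f j ≠ f (j + 1)).card

/-- States of the one register machine. -/
abbrev St : Type := Option (ℕ × Nm)

/-- Run the steps `l + n - 1, …, l` in this order, starting from the empty state. -/
def go (f : ℕ → St → St) : ℕ → ℕ → St
  | 0, _ => none
  | n + 1, l => f l (go f n (l + 1))

namespace Rh

variable (X : Rh)

/-- `z` lies in the level `l` section of `c`. -/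
def R (l : ℕ) (z c : W1) : Prop := z ≤ c ∧ X.ρ z c ≤ l

/-- The level `l` section of `c`. -/
noncomputable def cl (l : ℕ) (c : W1) : Finset W1 := (X.fin l c).toFinset

/-- The size of the level `l` section. -/
noncomputable def nrm (l : ℕ) (z : W1) : ℕ := (X.cl l z).card

/-- The type of the level `k` section. -/
noncomputable def sig (k : ℕ) (c : W1) : Finset (ℕ × ℕ) :=
  (X.cl k c).image fun z => (X.nrm k z, X.ρ z c)

/-- The anchor of `x` against `y` at level `j`. -/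
noncomputable def anc (j : ℕ) (x y : W1) : W1 := mn {z | X.R j z x ∧ ¬ X.R j z y} x

/-- The sign of the pair `x, y` at level `j`. -/
noncomputable def s (x y : W1) (j : ℕ) : Bool := X.sg (X.anc j x y) (X.anc j y x)

/-- The counter read at level `l`. -/
noncomputable def cnt (x y : W1) (l : ℕ) : ℕ :=
  chg (X.s (X.anc l x y) y) l (X.ρ (X.anc l x y) y - 1)

section
variable {P : Type} [PartialOrder P] (p : W1 → ℕ → P)

/-- `q` witnesses that `B` belongs to the complex. -/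
def Wit (B : Finset W1) (q : P) : Prop :=
  ∀ k j, j + 2 ≤ (B.image (X.sig k)).card → ∀ c ∈ B, ∀ z, X.R j z c → ∃ n < k, q ≤ p z n

/-- The complex. -/
def KK (B : Finset W1) : Prop := ∃ q, X.Wit p B q

/-- One member of the complex meets the level `l` cone of every element of `V`. -/
def Cov (l : ℕ) (V : Set W1) : Prop := ∃ B, X.KK p B ∧ ∀ a ∈ V, ∃ c ∈ B, X.R l a c

/-- The name `Θ` read at level `l'` is consistent with the anchor `ν` at level `l`. -/
def Cons (ν : W1) (l l' : ℕ) (Θ : Finset (ℕ × ℕ)) : Prop :=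
  (X.nrm l' ν, l) ∈ Θ ∧
    ∃ B, X.KK p B ∧ ∀ z, X.R l' z ν → ∀ j, (X.nrm l' z, j) ∈ Θ → ∃ c ∈ B, X.R j z c

open Classical in
/-- One step of the machine at level `l`. -/
noncomputable def step (x y : W1) (l : ℕ) (st : St) : St :=
  (st.filter fun e => decide (X.Cons p (X.anc l y x) l e.1 e.2.1)).or
    ((X.cd l (X.cnt x y l / 2)).map fun N => (l, N))

/-- The state after the levels `≥ l` have been processed. -/
noncomputable def state (x y : W1) (l : ℕ) : St := go (X.step p x y) (X.ρ x y - l) l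

/-- The colouring. -/
noncomputable def col (x y : W1) : Bool := ((X.state p x y 0).map fun e => e.2.2).getD false

open Classical in
/-- The name of `B` inside the level `l` section of `c`. -/
noncomputable def theta (l : ℕ) (c : W1) (B : Finset W1) : Finset (ℕ × ℕ) :=
  ((X.cl l c ×ˢ Finset.range (l + 1)).filter fun e => ∃ y ∈ B, X.R e.2 e.1 y).image
    fun e => (X.nrm l e.1, e.2)

/-- Members of the complex all of whose pairs have colour `i`, under reverse inclusion. -/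
abbrev KI (i : Bool) : Type :=
  OrderDual {B : Finset W1 // X.KK p B ∧ ∀ x ∈ B, ∀ y ∈ B, x < y → X.col p x y = i}

end

end Rh

/-- A uniform uncountable family of level `l` sections forming an increasing delta system. -/
structure Fam (X : Rh) where
  T : Set W1
  l : ℕ
  m : ℕ
  r : Fin (m + 1)
  h : W1 → Fin (m + 1) → W1
  ρt : Fin (m + 1) → Fin (m + 1) → ℕ
  σ : Fin (m + 1) → Fin (m + 1) → Bool
  unc : ¬ T.Countable
  mono : ∀ ζ ∈ T, StrictMono (h ζ)
  rng : ∀ ζ ∈ T, ∀ z, X.R l z (h ζ (Fin.last m)) ↔ ∃ u, h ζ u = z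
  root : ∀ ζ ∈ T, ∀ ζ' ∈ T, ∀ u < r, h ζ u = h ζ' u
  inc : ∀ ζ ∈ T, ∀ ζ' ∈ T, ζ < ζ' → ∀ u v, r ≤ v → h ζ u < h ζ' v
  rho : ∀ ζ ∈ T, ∀ u v, X.ρ (h ζ u) (h ζ v) = ρt u v
  sgn : ∀ ζ ∈ T, ∀ ζ' ∈ T, ∀ u v, u ≠ v → X.sg (h ζ u) (h ζ' v) = σ u v

namespace Fam

variable {X : Rh} (F : Fam X)

/-- The top element of a member. -/
def top (ζ : W1) : W1 := F.h ζ (Fin.last F.m)

/-- The section relation on positions. -/
def Rt (j : ℕ) (u v : Fin (F.m + 1)) : Prop := u ≤ v ∧ F.ρt u v ≤ j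

/-- The position of the anchor. -/
noncomputable def A (j : ℕ) (a b : Fin (F.m + 1)) : Fin (F.m + 1) :=
  mn {u | F.Rt j u a ∧ ¬ (u < F.r ∧ F.Rt j u b)} a

/-- The sign computed from positions and the signs `θ` of equal positions. -/
noncomputable def sA (θ : Fin (F.m + 1) → Bool) (a b : Fin (F.m + 1)) (j : ℕ) : Bool :=
  if F.A j a b = F.A j b a then θ (F.A j a b) else F.σ (F.A j a b) (F.A j b a)

/-- The signs of equal positions outside the root are given by `θ`. -/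
def Sgn (ζ ζ' : W1) (θ : Fin (F.m + 1) → Bool) : Prop :=
  ∀ u, F.r ≤ u → X.sg (F.h ζ u) (F.h ζ' u) = θ u

end Fam

/-- Every member of `F` contains the member `a ζ` of `F1` at the positions `φ`, outside the root,
and its condition is stronger. -/
def Emb {X : Rh} {Q : Type} [PartialOrder Q] (F1 : Fam X) (q1 : W1 → Q) (F : Fam X) (q : W1 → Q)
    (φ : Fin (F1.m + 1) → Fin (F.m + 1)) (a : W1 → W1) : Prop :=
  (∀ ζ ∈ F.T, a ζ ∈ F1.T ∧ q ζ ≤ q1 (a ζ) ∧ ∀ u, F.h ζ (φ u) = F1.h (a ζ) u) ∧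
    ∀ u, F1.r ≤ u → F.r ≤ φ u

/-- Control of the number of sign changes between the levels of `F1` and `F`. -/
def Ctrl {X : Rh} {Q : Type} [PartialOrder Q] (F1 : Fam X) (q1 : W1 → Q) (C : Type)
    (F : Fam X) (q : W1 → Q) (κ : ℕ) : Prop :=
  F1.l ≤ F.l ∧ ∀ (J : Fin (F.m + 1) → C) (θ : Fin (F.m + 1) → Bool),
    ∃ (J0 : Fin (F1.m + 1) → C) (θ0 : Fin (F1.m + 1) → Bool) (C0 : ℕ) (ε : Bool), ∀ k ≤ κ,
      ∃ φ a ψ b, Emb F1 q1 F q φ a ∧ Emb F1 q1 F q ψ b ∧ (∀ u, J (φ u) = J0 u) ∧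
        ∀ ζ ∈ F.T, ∀ ζ' ∈ F.T, ζ < ζ' → F.Sgn ζ ζ' (fun u => xor (θ u) (xor ε k.bodd)) →
          F1.Sgn (a ζ) (b ζ') θ0 ∧ chg (X.s (F1.top (a ζ)) (F1.top (b ζ'))) F1.l F.l = C0 + k

/-- The first stage: every member contains one member `ξ` of `F0` and members `η u` of `F0` that
cannot be split into few coverable sets and look the same from `ξ`. -/
structure St1 {X : Rh} {P : Type} [PartialOrder P] (p : W1 → ℕ → P) (F0 : Fam X)
    (p0 : W1 → P) where
  F : Fam X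
  w : ℕ
  q : W1 → Fin w → P
  ξ : W1 → W1
  η : Fin w → W1 → W1
  ex : Fin (F0.m + 1) → Fin (F.m + 1)
  ey : Fin w → Fin (F0.m + 1) → Fin (F.m + 1)
  hl : F0.l < F.l
  hx : ∀ u, Emb F0 p0 F (fun δ => q δ u) ex ξ
  hy : ∀ u, Emb F0 p0 F (fun δ => q δ u) (ey u) (η u)
  indep : ∀ θ, ∃ (Ax : ℕ → Fin (F.m + 1)) (f : ℕ → Bool), ∀ u, ∀ j ≤ F.l, F.r ≤ Ax j ∧
    F.A j (ex (Fin.last _)) (ey u (Fin.last _)) = Ax j ∧
    F.sA θ (ex (Fin.last _)) (ey u (Fin.last _)) j = f j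
  ncov : ∀ δ ∈ F.T, ∀ c : Fin w → Fin (F0.m + 1),
    ∃ i, ¬ X.Cov p F0.l {a | ∃ u, c u = i ∧ a = F0.h (η u δ) F0.r}

/-- The combinatorial core of Martin's axiom. -/
def Core : Prop :=
  ∀ (P : Type) [PartialOrder P] [Nonempty P], CCC P → ∀ p : W1 → ℕ → P,
    (∀ ξ q, ∃ n, Compat q (p ξ n)) → ∃ f : W1 → ℕ, ∀ ξ η, Compat (p ξ (f ξ)) (p η (f η))

end Pool.Agent.P.MP_78a647_lc.Full
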