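import Pool.Agent.P.MP_78a647_lc.Full.Basic

/-!
Uniform families: positions of anchors, rigidity, and the uniformisation lemma.
-/

namespace Pool.Agent.P.MP_78a647_lc.Full

open Set Rh

namespace Fam

variable {X : Rh} (F : Fam X)

theorem nonempty : F.T.Nonempty := by
  by_contra h
  exact F.unc (by rw [not_nonempty_iff_eq_empty.1 h]; exact countable_empty)

theorem R_top {ζ : W1} (h : ζ ∈ F.T) (u : Fin (F.m + 1)) : X.R F.l (F.h ζ u) (F.top ζ) :=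
  (F.rng ζ h _).2 ⟨u, rfl⟩

theorem R_iff {ζ : W1} (h : ζ ∈ F.T) (j : ℕ) (u v : Fin (F.m + 1)) :
    X.R j (F.h ζ u) (F.h ζ v) ↔ F.Rt j u v := by
  unfold Rh.R Rt
  rw [(F.mono ζ h).le_iff_le, F.rho ζ h]

theorem eq_pos {ζ ζ' : W1} (h : ζ ∈ F.T) (h' : ζ' ∈ F.T) (hne : ζ ≠ ζ') {u v : Fin (F.m + 1)}
    (e : F.h ζ u = F.h ζ' v) : u = v ∧ u < F.r := by
  rcases lt_or_gt_of_ne hne with h1 | h1
  · have h2 : v < F.r := not_le.1 fun h2 => (F.inc ζ h ζ' h' h1 u v h2).ne e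
    rw [← F.root ζ h ζ' h' v h2] at e
    have := (F.mono ζ h).injective e
    exact ⟨this, this ▸ h2⟩
  · have h2 : u < F.r := not_le.1 fun h2 => (F.inc ζ' h' ζ h h1 v u h2).ne' e
    rw [F.root ζ h ζ' h' u h2] at e
    exact ⟨(F.mono ζ' h').injective e, h2⟩

theorem pos_of_R {ζ : W1} (h : ζ ∈ F.T) {j : ℕ} (hj : j ≤ F.l) {z : W1} {v : Fin (F.m + 1)}
    (e : X.R j z (F.h ζ v)) : ∃ u, F.h ζ u = z :=
  (F.rng ζ h z).1 ((e.mono hj).trans (F.R_top h v))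

theorem not_R {ζ ζ' : W1} (h : ζ ∈ F.T) (h' : ζ' ∈ F.T) (hne : ζ ≠ ζ') {u : Fin (F.m + 1)}
    (hu : F.r ≤ u) (v : Fin (F.m + 1)) : ¬ X.R F.l (F.h ζ u) (F.h ζ' v) := by
  intro e
  obtain ⟨w, hw⟩ := F.pos_of_R h' le_rfl e
  exact not_le.2 (F.eq_pos h h' hne hw.symm).2 hu

theorem idx_lt {ζ ζ' : W1} (h : ζ ∈ F.T) (h' : ζ' ∈ F.T) (e : F.h ζ F.r < F.h ζ' F.r) :
    ζ < ζ' := by
  rcases lt_trichotomy ζ ζ' with h1 | rfl | h1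
  · exact h1
  · exact absurd e (lt_irrefl _)
  · exact absurd e (F.inc ζ' h' ζ h h1 _ _ le_rfl).asymm

theorem injOn_r : InjOn (fun ζ => F.h ζ F.r) F.T := by
  intro ζ h ζ' h' e
  by_contra hne
  exact lt_irrefl _ (F.eq_pos h h' hne e).2

theorem above (γ : W1) : ¬ {ζ ∈ F.T | γ < F.h ζ F.r}.Countable := by
  intro h
  have h2 : {ζ ∈ F.T | F.h ζ F.r ≤ γ}.Countable :=
    countable_of_injective_of_countable_image (F.injOn_r.mono fun _ h => h.1)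
      ((countable_Iic W1_Iio γ).mono (by rintro _ ⟨ζ, h, rfl⟩; exact h.2))
  refine F.unc ((h.union h2).mono fun ζ hζ => ?_)
  rcases lt_or_ge γ (F.h ζ F.r) with h3 | h3
  · exact Or.inl ⟨hζ, h3⟩
  · exact Or.inr ⟨hζ, h3⟩

theorem σ_anti {u v : Fin (F.m + 1)} (h : u ≠ v) : F.σ v u = !F.σ u v := by
  obtain ⟨ζ, hζ⟩ := F.nonempty
  rw [← F.sgn ζ hζ ζ hζ u v h, ← F.sgn ζ hζ ζ hζ v u h.symm]
  exact X.anti _ _ ((F.mono ζ hζ).injective.ne h)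

theorem Rt_refl (j : ℕ) (a : Fin (F.m + 1)) : F.Rt j a a := by
  obtain ⟨ζ, hζ⟩ := F.nonempty
  exact (F.R_iff hζ j a a).1 (R_refl _ _)

theorem A_spec {j : ℕ} {a : Fin (F.m + 1)} (ha : F.r ≤ a) (b : Fin (F.m + 1)) :
    F.Rt j (F.A j a b) a ∧ ¬ (F.A j a b < F.r ∧ F.Rt j (F.A j a b) b) ∧
      ∀ u, F.Rt j u a → ¬ (u < F.r ∧ F.Rt j u b) → F.A j a b ≤ u := by
  have := mn_spec (A := {u | F.Rt j u a ∧ ¬ (u < F.r ∧ F.Rt j u b)}) a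
    ⟨a, F.Rt_refl j a, fun h => not_le.2 h.1 ha⟩
  exact ⟨this.1.1, this.1.2, fun u h1 h2 => this.2 u ⟨h1, h2⟩⟩

theorem R_cross {ζ ζ' : W1} (h : ζ ∈ F.T) (h' : ζ' ∈ F.T) (hne : ζ ≠ ζ') {j : ℕ} (hj : j ≤ F.l)
    (u b : Fin (F.m + 1)) : X.R j (F.h ζ u) (F.h ζ' b) ↔ u < F.r ∧ F.Rt j u b := by
  constructor
  · intro e
    obtain ⟨w, hw⟩ := F.pos_of_R h' hj e
    obtain ⟨rfl, h2⟩ := F.eq_pos h h' hne hw.symm
    rw [← hw, F.R_iff h'] at e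
    exact ⟨h2, e⟩
  · rintro ⟨h1, h2⟩
    rw [F.root ζ h ζ' h' u h1, F.R_iff h']
    exact h2

theorem anc_pos {ζ ζ' : W1} (h : ζ ∈ F.T) (h' : ζ' ∈ F.T) (hne : ζ ≠ ζ') {j : ℕ} (hj : j ≤ F.l)
    {a : Fin (F.m + 1)} (ha : F.r ≤ a) (b : Fin (F.m + 1)) :
    X.anc j (F.h ζ a) (F.h ζ' b) = F.h ζ (F.A j a b) := by
  obtain ⟨h1, h2, h3⟩ := F.A_spec (j := j) ha b
  refine anc_eq ((F.R_iff h j _ _).2 h1) (fun e => h2 ((F.R_cross h h' hne hj _ _).1 e))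
    fun z c1 c2 => ?_
  obtain ⟨u, rfl⟩ := F.pos_of_R h hj c1
  exact (F.mono ζ h).monotone (h3 u ((F.R_iff h j _ _).1 c1)
    fun e => c2 ((F.R_cross h h' hne hj _ _).2 e))

theorem Rt_top {u v : Fin (F.m + 1)} (h : u ≤ v) : F.Rt F.l u v := by
  obtain ⟨ζ, hζ⟩ := F.nonempty
  exact (F.R_iff hζ _ u v).1 ((F.R_top hζ u).tri (F.R_top hζ v) ((F.mono ζ hζ).monotone h))

theorem A_top {a b : Fin (F.m + 1)} (ha : F.r ≤ a) (hb : F.r ≤ b) : F.A F.l a b = F.r := by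
  obtain ⟨-, h2, h3⟩ := F.A_spec (j := F.l) ha b
  refine le_antisymm (h3 _ (F.Rt_top ha) fun e => lt_irrefl _ e.1) (not_lt.1 fun e => ?_)
  exact h2 ⟨e, F.Rt_top (e.le.trans hb)⟩

theorem rigid_ge {j : ℕ} {a b : Fin (F.m + 1)} (ha : F.r ≤ a) (hb : F.r ≤ b)
    (e : F.A j a b = F.A j b a) : F.r ≤ F.A j a b :=
  not_lt.1 fun h => (F.A_spec ha b).2.1 ⟨h, e ▸ (F.A_spec hb a).1⟩

theorem rigid_mono {j j' : ℕ} {a b : Fin (F.m + 1)} (ha : F.r ≤ a) (hb : F.r ≤ b) (hj : j ≤ j')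
    (e : F.A j a b = F.A j b a) : F.A j' a b = F.A j' b a := by
  obtain ⟨ζ, hζ⟩ := F.nonempty
  have key : ∀ a b : Fin (F.m + 1), F.r ≤ a → F.r ≤ b → F.A j a b = F.A j b a →
      F.A j' b a ≤ F.A j' a b := by
    intro a b ha hb e
    have h0 := F.rigid_ge ha hb e
    have h1 := ((F.R_iff hζ _ _ _).2 (F.A_spec (j := j) ha b).1).mono hj
    have h2 := ((F.R_iff hζ _ _ _).2 (F.A_spec (j := j) hb a).1).mono hj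
    rw [← e] at h2
    obtain ⟨c1, c2, c3⟩ := F.A_spec (j := j') ha b
    have h3 : F.A j' a b ≤ F.A j a b :=
      c3 _ ((F.R_iff hζ _ _ _).1 h1) fun e => not_le.2 e.1 h0
    have h4 : F.Rt j' (F.A j' a b) b := (F.R_iff hζ _ _ _).1
      ((((F.R_iff hζ _ _ _).2 c1).tri h1 ((F.mono ζ hζ).monotone h3)).trans h2)
    exact (F.A_spec (j := j') hb a).2.2 _ h4 fun e => c2 ⟨e.1, h4⟩
  exact le_antisymm (key b a hb ha e.symm) (key a b ha hb e)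

theorem s_pos {ζ ζ' : W1} (h : ζ ∈ F.T) (h' : ζ' ∈ F.T) (hne : ζ ≠ ζ') {j : ℕ} (hj : j ≤ F.l)
    {a b : Fin (F.m + 1)} (ha : F.r ≤ a) (hb : F.r ≤ b) {θ : Fin (F.m + 1) → Bool}
    (hθ : F.Sgn ζ ζ' θ) : X.s (F.h ζ a) (F.h ζ' b) j = F.sA θ a b j := by
  unfold Rh.s sA
  rw [F.anc_pos h h' hne hj ha, F.anc_pos h' h hne.symm hj hb]
  split_ifs with e
  · rw [← e]
    exact hθ _ (F.rigid_ge ha hb e)
  · exact F.sgn ζ h ζ' h' _ _ e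

end Fam

theorem exists_fam (X : Rh) {T0 : Set W1} (hT : ¬ T0.Countable) (β : W1 → W1)
    (hβ : ∀ ζ ∈ T0, ζ ≤ β ζ) (l : ℕ) {ι : Type} [Finite ι] (a : W1 → ι → W1)
    (ha : ∀ ζ ∈ T0, ∀ i, X.R l (a ζ i) (β ζ)) :
    ∃ (F : Fam X) (pos : ι → Fin (F.m + 1)), F.T ⊆ T0 ∧ F.l = l ∧ (∀ ζ ∈ F.T, F.top ζ = β ζ) ∧
      (∀ ζ ∈ F.T, ∀ u < F.r, F.h ζ u < ζ) ∧ ∀ ζ ∈ F.T, ∀ i, F.h ζ (pos i) = a ζ i := by
  classical
  obtain ⟨m, hm⟩ := exists_uncountable_fibre hT fun ζ => (X.cl l (β ζ)).card - 1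
  have h1 : ∀ ζ ∈ {ζ ∈ T0 | (X.cl l (β ζ)).card - 1 = m},
      ∃ (h : Fin (m + 1) → W1) (pos : ι → Fin (m + 1)), StrictMono h ∧
        (∀ z, X.R l z (β ζ) ↔ ∃ u, h u = z) ∧ h (Fin.last m) = β ζ ∧ ∀ i, h (pos i) = a ζ i := by
    intro ζ hζ
    have hc : (X.cl l (β ζ)).card = m + 1 := by
      have : 0 < (X.cl l (β ζ)).card := Finset.card_pos.2 ⟨_, mem_cl.2 (R_refl l (β ζ))⟩
      have := hζ.2
      omega
    have h2 : ∀ z, X.R l z (β ζ) ↔ ∃ u, (X.cl l (β ζ)).orderEmbOfFin hc u = z := fun z => by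
      rw [← mem_cl, ← Finset.mem_coe, ← Finset.range_orderEmbOfFin _ hc]
      rfl
    choose pos hpos using fun i => (h2 _).1 (ha ζ hζ.1 i)
    refine ⟨_, pos, ((X.cl l (β ζ)).orderEmbOfFin hc).strictMono, h2, ?_, hpos⟩
    obtain ⟨u, hu⟩ := (h2 _).1 (R_refl l (β ζ))
    refine le_antisymm ((h2 _).2 ⟨_, rfl⟩).1 ?_
    exact hu.ge.trans (((X.cl l (β ζ)).orderEmbOfFin hc).monotone (Fin.le_last u))
  choose! h pos g1 g2 g3 g4 using h1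
  obtain ⟨⟨ρt, lb, pos0, σ⟩, hk⟩ := exists_uncountable_fibre hm fun ζ =>
    ((fun u v => X.ρ (h ζ u) (h ζ v)), (fun u v => X.lab (h ζ u) (h ζ v)), pos ζ,
      fun u v => X.sg (h ζ u) (h ζ v))
  set T1 := {ζ ∈ {ζ ∈ T0 | (X.cl l (β ζ)).card - 1 = m} |
    ((fun u v => X.ρ (h ζ u) (h ζ v)), (fun u v => X.lab (h ζ u) (h ζ v)), pos ζ,
      fun u v => X.sg (h ζ u) (h ζ v)) = (ρt, lb, pos0, σ)} with hT1
  have g5 : ∀ ζ ∈ T1, (fun u v => X.ρ (h ζ u) (h ζ v)) = ρt ∧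
      (fun u v => X.lab (h ζ u) (h ζ v)) = lb ∧ pos ζ = pos0 ∧
      (fun u v => X.sg (h ζ u) (h ζ v)) = σ := fun ζ hζ => by
    simpa only [Prod.mk.injEq] using hζ.2
  let G : ℕ → Prop := fun r => ∃ T' ⊆ T1, ¬ T'.Countable ∧
    ∀ ζ ∈ T', ∀ ζ' ∈ T', ∀ u : Fin (m + 1), u.val < r → h ζ u = h ζ' u
  have G0 : G 0 := ⟨T1, Subset.rfl, hk, fun _ _ _ _ u hu => absurd hu (Nat.not_lt_zero _)⟩
  have G1 : ¬ G (m + 1) := by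
    rintro ⟨T', t1, t2, t3⟩
    obtain ⟨ζ, hζ, -⟩ := exists_gt_mem W1_Iio t2 (β (Classical.arbitrary _))
    obtain ⟨ζ', hζ', t4⟩ := exists_gt_mem W1_Iio t2 (β ζ)
    have := t3 ζ hζ ζ' hζ' (Fin.last m) (Fin.last m).2
    rw [g3 ζ (t1 hζ).1, g3 ζ' (t1 hζ').1] at this
    exact absurd (this ▸ hβ ζ' (t1 hζ').1.1) (not_le.2 t4)
  obtain ⟨r, r1, ⟨T2, t1, t2, t3⟩, r2⟩ : ∃ r ≤ m, G r ∧ ¬ G (r + 1) := by
    by_contra hc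
    push Not at hc
    have : ∀ r ≤ m + 1, G r := by
      intro r
      induction r with
      | zero => exact fun _ => G0
      | succ r ih => exact fun hr => hc r (by omega) (ih (by omega))
    exact G1 (this _ le_rfl)
  let r' : Fin (m + 1) := ⟨r, by omega⟩
  have c1 : ∀ γ, {ζ ∈ T2 | h ζ r' ≤ γ}.Countable := by
    intro γ
    have : ∀ z, {ζ ∈ T2 | h ζ r' = z}.Countable := by
      intro z
      by_contra hz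
      refine r2 ⟨_, fun ζ hζ => t1 hζ.1, hz, fun ζ hζ ζ' hζ' u hu => ?_⟩
      rcases Nat.lt_succ_iff_lt_or_eq.1 hu with h5 | h5
      · exact t3 ζ hζ.1 ζ' hζ'.1 u h5
      · rw [show u = r' from Fin.ext h5, hζ.2, hζ'.2]
    refine ((countable_Iic W1_Iio γ).biUnion fun z _ => this z).mono fun ζ hζ => ?_
    exact mem_iUnion₂.2 ⟨h ζ r', hζ.2, hζ.1, rfl⟩
  choose f hf using fun ζ => exists_gt_of_countable W1_Iio (c1 (β ζ))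
  obtain ⟨ζ0, hζ0, -⟩ := exists_gt_mem W1_Iio t2 (β (Classical.arbitrary _))
  have t4 : ¬ {ζ ∈ T2 | β ζ0 < ζ}.Countable := not_countable_of_unbounded W1_Iio fun x => by
    obtain ⟨b, b1, b2⟩ := exists_gt_mem W1_Iio t2 (max x (β ζ0))
    exact ⟨b, ⟨b1, (le_max_right _ _).trans_lt b2⟩, (le_max_left _ _).trans b2.le⟩
  obtain ⟨T3, s1, s2, s3⟩ := exists_sparse W1_Iio t4 f
  have s4 : ∀ ζ ∈ T3, ζ ∈ T1 := fun ζ hζ => t1 (s1 hζ).1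
  have s5 : ∀ ζ ∈ T1, ∀ u, h ζ u ≤ β ζ := fun ζ hζ u => ((g2 ζ hζ.1 _).2 ⟨u, rfl⟩).1
  refine ⟨⟨T3, l, m, r', h, ρt, σ, s2,
    fun ζ hζ => g1 ζ (s4 ζ hζ).1, fun ζ hζ z => ?_,
    fun ζ hζ ζ' hζ' u hu => t3 ζ (s1 hζ).1 ζ' (s1 hζ').1 u hu, fun ζ hζ ζ' hζ' hlt u v hv => ?_,
    fun ζ hζ u v => congrFun (congrFun (g5 ζ (s4 ζ hζ)).1 u) v, fun ζ hζ ζ' hζ' u v huv => ?_⟩,
    pos0, fun ζ hζ => (s4 ζ hζ).1.1, rfl, fun ζ hζ => g3 ζ (s4 ζ hζ).1, fun ζ hζ u hu => ?_,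
    fun ζ hζ i => ?_⟩
  · rw [g3 ζ (s4 ζ hζ).1]
    exact g2 ζ (s4 ζ hζ).1 z
  · refine (s5 ζ (s4 ζ hζ) u).trans_lt (lt_of_lt_of_le (not_le.1 fun h5 => ?_)
      ((g1 ζ' (s4 ζ' hζ').1).monotone hv))
    exact (hf ζ ζ' ⟨(s1 hζ').1, h5⟩).asymm (s3 ζ hζ ζ' hζ' hlt)
  · have e1 := (g5 ζ (s4 ζ hζ)).2.1.trans (g5 ζ' (s4 ζ' hζ')).2.1.symm
    rw [X.loc _ _ _ _ ((g1 ζ (s4 ζ hζ).1).injective.ne huv) ((g1 ζ' (s4 ζ' hζ').1).injective.ne huv)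
      (congrFun (congrFun e1 u) v)]
    exact congrFun (congrFun (g5 ζ (s4 ζ hζ)).2.2.2 u) v
  · show h ζ u < ζ
    rw [t3 ζ (s1 hζ).1 ζ0 hζ0 u hu]
    exact (s5 ζ0 (t1 hζ0) u).trans_lt (s1 hζ).2
  · show h ζ (pos0 i) = a ζ i
    rw [← (g5 ζ (s4 ζ hζ)).2.2.1]
    exact g4 ζ (s4 ζ hζ).1 i

theorem Emb.lt {X : Rh} {Q : Type} [PartialOrder Q] {F1 F : Fam X} {q1 q q' : W1 → Q}
    {φ ψ : Fin (F1.m + 1) → Fin (F.m + 1)} {a b : W1 → W1} (h1 : Emb F1 q1 F q φ a)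
    (h2 : Emb F1 q1 F q' ψ b) {ζ ζ' : W1} (h : ζ ∈ F.T) (h' : ζ' ∈ F.T) (hlt : ζ < ζ') :
    a ζ < b ζ' := by
  refine F1.idx_lt (h1.1 ζ h).1 (h2.1 ζ' h').1 ?_
  rw [← (h1.1 ζ h).2.2, ← (h2.1 ζ' h').2.2]
  exact F.inc ζ h ζ' h' hlt _ _ (h2.2 _ le_rfl)

end Pool.Agent.P.MP_78a647_lc.Full
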