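import Pool.Agent.P.MP_78a647_lc.Full.Many

namespace Pool.Agent.P.MP_78a647_lc.Full

open Set Cardinal

theorem reduce_dense {P : Type} [PartialOrder P] (p q r0 : P) :
    ∃ r ∈ {r | (r ≤ p ∧ r ≤ q) ∨ ¬ Compat r p ∨ ¬ Compat r q}, r ≤ r0 := by
  by_cases h1 : Compat r0 p
  · obtain ⟨r1, a1, a2⟩ := h1
    by_cases h2 : Compat r1 q
    · obtain ⟨r2, b1, b2⟩ := h2
      exact ⟨r2, Or.inl ⟨b1.trans a2, b2⟩, b1.trans a1⟩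
    · exact ⟨r1, Or.inr (Or.inr h2), a1⟩
  · exact ⟨r0, Or.inr (Or.inl h1), le_rfl⟩

theorem reduce_mul {a b : Cardinal.{0}} (ha : a ≤ ℵ₁) (hb : b ≤ ℵ₁) : a * b ≤ ℵ₁ :=
  (mul_le_mul' ha hb).trans (mul_eq_self aleph0_lt_aleph_one.le).le

theorem reduce_add {a b : Cardinal.{0}} (ha : a ≤ ℵ₁) (hb : b ≤ ℵ₁) : a + b ≤ ℵ₁ :=
  (add_le_add ha hb).trans (add_eq_self aleph0_lt_aleph_one.le).le

theorem reduce_closure {P : Type} (S0 : Set P) (h0 : #S0 ≤ ℵ₁) (B : P → P → ℕ → P) :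
    ∃ S : Set P, S0 ⊆ S ∧ #S ≤ ℵ₁ ∧ ∀ p ∈ S, ∀ q ∈ S, ∀ n, B p q n ∈ S := by
  let T : ℕ → Set P := fun n => Nat.rec S0
    (fun _ U => U ∪ range fun x : ↥U × ↥U × ℕ => B x.1.1 x.2.1.1 x.2.2) n
  have hs : ∀ n, T (n + 1) = T n ∪ range fun x : ↥(T n) × ↥(T n) × ℕ => B x.1.1 x.2.1.1 x.2.2 :=
    fun n => rfl
  have hm : Monotone T := monotone_nat_of_le_succ fun n => by
    rw [hs]
    exact subset_union_left
  have hN : #ℕ ≤ ℵ₁ := by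
    rw [mk_nat]
    exact aleph0_lt_aleph_one.le
  have hc : ∀ n, #↥(T n) ≤ ℵ₁ := by
    intro n
    induction n with
    | zero => exact h0
    | succ n ih =>
      rw [hs]
      refine (mk_union_le _ _).trans (reduce_add ih (mk_range_le.trans ?_))
      rw [← mul_def, ← mul_def]
      exact reduce_mul ih (reduce_mul ih hN)
  refine ⟨⋃ n, T n, subset_iUnion T 0, ?_, ?_⟩
  · exact (mk_iUnion_le T).trans (reduce_mul hN (ciSup_le' hc))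
  · intro p hp q hq n
    obtain ⟨a, ha⟩ := mem_iUnion.1 hp
    obtain ⟨b, hb⟩ := mem_iUnion.1 hq
    refine mem_iUnion.2 ⟨max a b + 1, ?_⟩
    rw [hs]
    exact Or.inr ⟨(⟨p, hm (le_max_left a b) ha⟩, ⟨q, hm (le_max_right a b) hb⟩, n), rfl⟩

theorem MA_of_core (h : Core) (P : Type) [PartialOrder P] [Nonempty P] (hP : CCC P)
    (𝒟 : Set (Set P)) (h1 : Cardinal.mk 𝒟 ≤ ℵ₁) (h2 : ∀ D ∈ 𝒟, ∀ p, ∃ q ∈ D, q ≤ p) :
    ∃ G : Order.PFilter P, ∀ D ∈ 𝒟, ∃ p ∈ G, p ∈ D := by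
  have hN : #ℕ ≤ ℵ₁ := by
    rw [mk_nat]
    exact aleph0_lt_aleph_one.le
  have h3 : ∀ D : (insert Set.univ 𝒟 : Set (Set P)), ∀ p, ∃ q ∈ D.1, q ≤ p := by
    rintro ⟨D, rfl | hD⟩ p
    · exact ⟨p, trivial, le_rfl⟩
    · exact h2 D hD p
  have h4 : #(insert Set.univ 𝒟 : Set (Set P)) ≤ ℵ₁ :=
    mk_insert_le.trans (reduce_add h1 (one_le_aleph0.trans aleph0_lt_aleph_one.le))
  choose A hA1 hA2 using fun D : (insert Set.univ 𝒟 : Set (Set P)) =>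
    exists_predense hP D.1 (h3 D)
  choose B hB1 hB2 using fun p q : P => exists_predense hP _ (reduce_dense p q)
  obtain ⟨S, hS0, hS1, hS2⟩ := reduce_closure
    (range fun x : ↥(insert Set.univ 𝒟 : Set (Set P)) × ℕ => A x.1 x.2)
    (mk_range_le.trans (by rw [← mul_def]; exact reduce_mul h4 hN)) B
  have hT : #((insert Set.univ 𝒟 : Set (Set P)) ⊕ (S × S)) ≤ #W1 := by
    rw [mk_W1, ← add_def, ← mul_def]
    exact reduce_add h4 (reduce_mul hS1 hS1)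
  obtain ⟨e⟩ := (le_def _ _).1 hT
  have : Nonempty ((insert Set.univ 𝒟 : Set (Set P)) ⊕ (S × S)) :=
    ⟨Sum.inl ⟨Set.univ, mem_insert _ _⟩⟩
  have hg := Function.invFun_surjective e.injective
  set g := Function.invFun e
  let s : (insert Set.univ 𝒟 : Set (Set P)) ⊕ (S × S) → ℕ → P :=
    Sum.elim A fun x => B x.1.1 x.2.1
  have hs1 : ∀ t q, ∃ n, Compat q (s t n) := by
    rintro (D | x) q
    · exact hA2 D q
    · exact hB2 _ _ q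
  have hs2 : ∀ t n, s t n ∈ S := by
    rintro (D | x) n
    · exact hS0 ⟨(D, n), rfl⟩
    · exact hS2 _ x.1.2 _ x.2.2 n
  obtain ⟨f, hf⟩ := h P hP (fun ξ => s (g ξ)) fun ξ q => hs1 _ q
  have hdir : ∀ ξ η, ∃ ζ, s (g ζ) (f ζ) ≤ s (g ξ) (f ξ) ∧ s (g ζ) (f ζ) ≤ s (g η) (f η) := by
    intro ξ η
    obtain ⟨ζ, hζ⟩ := hg (Sum.inr (⟨_, hs2 (g ξ) (f ξ)⟩, ⟨_, hs2 (g η) (f η)⟩))
    have e1 : s (g ζ) (f ζ) = B (s (g ξ) (f ξ)) (s (g η) (f η)) (f ζ) := by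
      rw [hζ]
      rfl
    refine ⟨ζ, ?_⟩
    rcases hB1 (s (g ξ) (f ξ)) (s (g η) (f η)) (f ζ) with a | a | a
    · rw [e1]
      exact a
    · exact absurd (e1 ▸ hf ζ ξ) a
    · exact absurd (e1 ▸ hf ζ η) a
  obtain ⟨ξ0, -⟩ := hg (Sum.inl ⟨Set.univ, mem_insert _ _⟩)
  have hF : Order.IsPFilter {z | ∃ ξ, s (g ξ) (f ξ) ≤ z} := by
    refine Order.IsPFilter.of_def ⟨_, ξ0, le_rfl⟩ ?_ ?_
    · rintro x ⟨ξ, hx⟩ y ⟨η, hy⟩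
      obtain ⟨ζ, a, b⟩ := hdir ξ η
      exact ⟨_, ⟨ζ, le_rfl⟩, a.trans hx, b.trans hy⟩
    · rintro x y hxy ⟨ξ, hx⟩
      exact ⟨ξ, hx.trans hxy⟩
  refine ⟨hF.toPFilter, fun D hD => ?_⟩
  obtain ⟨ξ, hξ⟩ := hg (Sum.inl ⟨D, mem_insert_of_mem _ hD⟩)
  refine ⟨s (g ξ) (f ξ), (⟨ξ, le_rfl⟩ : _ ∈ {z | ∃ ξ, s (g ξ) (f ξ) ≤ z}), ?_⟩
  rw [hξ]
  exact hA1 ⟨D, mem_insert_of_mem _ hD⟩ (f ξ)

end Pool.Agent.P.MP_78a647_lc.Full
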