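import Pool.Agent.P.MP_78a647_lc.Full.Spade

namespace Pool.Agent.P.MP_78a647_lc.Full

open Set

theorem Run_go_congr {f g : ℕ → St → St} {n l : ℕ} (h : ∀ j, l ≤ j → j < l + n → f j = g j) :
    go f n l = go g n l := by
  induction n generalizing l with
  | zero => rfl
  | succ n ih =>
    show f l (go f n (l + 1)) = g l (go g n (l + 1))
    rw [h l le_rfl (by omega), ih fun j h1 h2 => h j (by omega) (by omega)]

namespace Rh

variable {X : Rh} {P : Type} [PartialOrder P] {p : W1 → ℕ → P}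

theorem Run_state_lt {x y : W1} {l : ℕ} (h : l < X.ρ x y) :
    X.state p x y l = X.step p x y l (X.state p x y (l + 1)) := by
  unfold state
  rw [show X.ρ x y - l = X.ρ x y - (l + 1) + 1 by omega]
  rfl

theorem Run_step_none {x y : W1} {l : ℕ} {st : St} {N : Nm}
    (h2 : X.cd l (X.cnt x y l / 2) = some N)
    (h : ∀ e, st = some e → ¬ X.Cons p (X.anc l y x) l e.1 e.2.1) :
    X.step p x y l st = some (l, N) := by
  unfold step
  rw [h2]
  cases st with
  | none => rfl
  | some e => simp [Option.filter, h e rfl]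

theorem Run_step_keep {x y : W1} {l : ℕ} {e : ℕ × Nm}
    (h : X.Cons p (X.anc l y x) l e.1 e.2.1) : X.step p x y l (some e) = some e := by
  unfold step
  simp [Option.filter, h]

theorem Run_step_skip {x y : W1} {l : ℕ} (st : St) (h : X.cd l (X.cnt x y l / 2) = none) :
    X.step p x y l st = none ∨ X.step p x y l st = st := by
  unfold step
  rw [h]
  cases st with
  | none => exact Or.inl rfl
  | some e =>
    by_cases hc : X.Cons p (X.anc l y x) l e.1 e.2.1 <;> simp [Option.filter, hc]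

theorem Run_step_cases {x y : W1} {l : ℕ} {st : St} {e : ℕ × Nm}
    (h : X.step p x y l st = some e) : st = some e ∨ e.1 = l := by
  unfold step at h
  rcases Option.or_eq_some_iff.1 h with h1 | ⟨-, h1⟩
  · exact Or.inl (Option.filter_eq_some_iff.1 h1).1
  · obtain ⟨N, -, rfl⟩ := Option.map_eq_some_iff.1 h1
    exact Or.inr rfl

theorem state_level {x y : W1} {l : ℕ} {e : ℕ × Nm} (h : X.state p x y l = some e) : l ≤ e.1 := by
  unfold state at h
  generalize X.ρ x y - l = n at h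
  induction n generalizing l with
  | zero => exact absurd h (by simp [go])
  | succ n ih =>
    rcases Run_step_cases (show X.step p x y l (go (X.step p x y) n (l + 1)) = some e from h) with
      h1 | h1
    · exact (Nat.le_succ l).trans (ih h1)
    · exact h1.ge

theorem state_blur {x y y' : W1} {l : ℕ} (hy : X.R l y y') (h : x < y) (hn : ¬ X.R l x y) :
    X.state p x y l = X.state p x y' l := by
  unfold state
  have hl := lt_rho h.le hn
  rw [← rho_blur hy h.le hn]
  refine Run_go_congr fun j h1 h2 => ?_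
  have hj : ¬ X.R j x y := not_R (by omega)
  obtain ⟨-, e1, e2⟩ := blur (R_refl j x) (hy.mono h1) h hj
  obtain ⟨a1, a2, -⟩ := anc_spec hj
  have a3 : X.anc j x y < y := a1.1.trans_lt h
  have a4 := lt_rho a3.le a2
  have e3 : X.cnt x y j = X.cnt x y' j := by
    unfold cnt
    rw [← e1, ← rho_blur (hy.mono h1) a3.le a2]
    exact chg_congr fun i h3 h4 =>
      s_blur (R_refl i _) (hy.mono (h1.trans h3)) a3 (not_R (by omega))
  funext st
  unfold step
  rw [e2, e3]

theorem col_eq {x y : W1} {l0 l1 : ℕ} {N : Nm} (h0 : l0 < l1) (h1 : l1 ≤ X.ρ x y)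
    (h2 : X.cd l0 (X.cnt x y l0 / 2) = some N)
    (h3 : ∀ l, l0 < l → l < l1 → X.cd l (X.cnt x y l / 2) = none)
    (h4 : ∀ e, X.state p x y l1 = some e → ¬ X.Cons p (X.anc l0 y x) l0 e.1 e.2.1)
    (h5 : ∀ l < l0, X.Cons p (X.anc l y x) l l0 N.1) : X.col p x y = N.2 := by
  have A : ∀ n l, l + n = l1 → l0 < l →
      X.state p x y l = none ∨ X.state p x y l = X.state p x y l1 := by
    intro n
    induction n with
    | zero => exact fun l e _ => Or.inr (by rw [← e]; rfl)
    | succ n ih =>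
      intro l e hl
      rw [Run_state_lt (show l < X.ρ x y by omega)]
      rcases Run_step_skip (p := p) (X.state p x y (l + 1)) (h3 l hl (by omega)) with h | h
      · exact Or.inl h
      · rw [h]
        exact ih (l + 1) (by omega) (by omega)
  have B : X.state p x y l0 = some (l0, N) := by
    rw [Run_state_lt (h0.trans_le h1)]
    refine Run_step_none h2 fun e he => ?_
    rcases A (l1 - (l0 + 1)) (l0 + 1) (by omega) (by omega) with h | h
    · rw [h] at he
      exact absurd he (by simp)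
    · exact h4 e (h ▸ he)
  have C : ∀ n l, l + n = l0 → X.state p x y l = some (l0, N) := by
    intro n
    induction n with
    | zero => exact fun l e => by rw [← B, ← e]; rfl
    | succ n ih =>
      intro l e
      rw [Run_state_lt (show l < X.ρ x y by omega), ih (l + 1) (by omega)]
      exact Run_step_keep (h5 l (by omega))
  unfold col
  rw [C l0 0 (by omega)]
  rfl

theorem cov_of_cons [Nonempty P] {V : Set W1} {c : W1} {l0 l1 l' : ℕ} {Θ : Finset (ℕ × ℕ)}
    (h1 : l1 ≤ l') (h2 : ∀ a ∈ V, X.R l1 a c) (h3 : ∀ a ∈ V, X.Cons p a l0 l' Θ) :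
    X.Cov p l0 V := by
  rcases V.eq_empty_or_nonempty with rfl | hne
  · exact ⟨∅, KK_empty, fun a ha => absurd ha (notMem_empty a)⟩
  obtain ⟨ν, hν, hm⟩ := Set.exists_max_image V id ((X.fin l1 c).subset h2) hne
  obtain ⟨-, B, hB, hc⟩ := h3 ν hν
  exact ⟨B, hB, fun a ha =>
    hc a (((h2 a ha).tri (h2 ν hν) (hm a ha)).mono h1) l0 (h3 a ha).1⟩

theorem Run_mem_theta {l : ℕ} {c : W1} {B : Finset W1} {e : ℕ × ℕ} :
    e ∈ X.theta l c B ↔
      ∃ z, X.R l z c ∧ e.2 ≤ l ∧ (∃ y ∈ B, X.R e.2 z y) ∧ X.nrm l z = e.1 := by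
  unfold theta
  simp only [Finset.mem_image, Finset.mem_filter, Finset.mem_product, mem_cl, Finset.mem_range]
  constructor
  · rintro ⟨⟨z, j⟩, ⟨⟨a1, a2⟩, a3⟩, rfl⟩
    exact ⟨z, a1, Nat.lt_succ_iff.1 a2, a3, rfl⟩
  · rintro ⟨z, a1, a2, a3, a4⟩
    exact ⟨(z, e.2), ⟨⟨a1, Nat.lt_succ_iff.2 a2⟩, a3⟩, Prod.ext a4 rfl⟩

theorem theta_subset (l : ℕ) (c : W1) (B : Finset W1) :
    X.theta l c B ⊆ Finset.range (X.S l + 1) ×ˢ Finset.range (l + 1) := by
  intro e he
  obtain ⟨z, -, a2, -, a4⟩ := Run_mem_theta.1 he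
  exact Finset.mem_product.2 ⟨Finset.mem_range.2 (Nat.lt_succ_iff.2 (a4 ▸ nrm_le l z)),
    Finset.mem_range.2 (Nat.lt_succ_iff.2 a2)⟩

theorem cons_theta {l l0 : ℕ} {c y ν : W1} {B : Finset W1} (hB : X.KK p B) (hy : y ∈ B)
    (h1 : X.R l0 y c) (h2 : X.R l ν y) (h3 : l ≤ l0) : X.Cons p ν l l0 (X.theta l0 c B) := by
  have h4 : X.R l0 ν c := (h2.mono h3).trans h1
  refine ⟨Run_mem_theta.2 ⟨ν, h4, h3, ⟨y, hy, h2⟩, rfl⟩, B, hB, fun z hz j hj => ?_⟩
  obtain ⟨z', a1, -, a3, a4⟩ := Run_mem_theta.1 hj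
  rwa [nrm_inj a1 (hz.trans h4) a4] at a3

end Rh

end Pool.Agent.P.MP_78a647_lc.Full
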