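import Pool.Agent.P.MP_78a647_lc.Full.Basic

/-!
Counting lemmas for ccc posets.
-/

namespace Pool.Agent.P.MP_78a647_lc.Full

open Set

variable {P : Type} [PartialOrder P]

theorem many_symm {p q : P} (h : Compat p q) : Compat q p :=
  let ⟨r, h1, h2⟩ := h
  ⟨r, h2, h1⟩

theorem many_mono {p q p' q' : P} (h : Compat p q) (h1 : p ≤ p') (h2 : q ≤ q') : Compat p' q' :=
  let ⟨r, h3, h4⟩ := h
  ⟨r, h3.trans h1, h4.trans h2⟩

/-- A countable subset of `D` such that every element of `D` is compatible with a member. -/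
theorem many_max (hP : CCC P) (D : Set P) :
    ∃ A ⊆ D, A.Countable ∧ ∀ d ∈ D, ∃ a ∈ A, Compat d a := by
  obtain ⟨A, hA⟩ := zorn_subset {A : Set P | A ⊆ D ∧ A.Pairwise fun p q => ¬ Compat p q}
    fun c hc hch => ⟨⋃₀ c, ⟨sUnion_subset fun A hA => (hc hA).1,
      (hch.pairwise_sUnion).2 fun A hA => (hc hA).2⟩, fun A hA => subset_sUnion_of_mem hA⟩
  refine ⟨A, hA.prop.1, hP A hA.prop.2, fun d hd => ?_⟩
  by_contra h
  push Not at h
  have h1 : insert d A ⊆ A := by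
    refine hA.le_of_ge ⟨insert_subset hd hA.prop.1, ?_⟩ (subset_insert d A)
    exact hA.prop.2.insert fun a ha _ => ⟨h a ha, fun h2 => h a ha (many_symm h2)⟩
  exact h d (h1 (mem_insert d A)) ⟨d, le_rfl, le_rfl⟩

theorem exists_predense [Nonempty P] (hP : CCC P) (D : Set P) (hD : ∀ q, ∃ r ∈ D, r ≤ q) :
    ∃ a : ℕ → P, (∀ n, a n ∈ D) ∧ ∀ q, ∃ n, Compat q (a n) := by
  obtain ⟨A, h1, h2, h3⟩ := many_max hP D
  have hne : A.Nonempty := by
    obtain ⟨r, hr, -⟩ := hD (Classical.arbitrary P)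
    obtain ⟨a, ha, -⟩ := h3 r hr
    exact ⟨a, ha⟩
  obtain ⟨a, rfl⟩ := h2.exists_eq_range hne
  refine ⟨a, fun n => h1 ⟨n, rfl⟩, fun q => ?_⟩
  obtain ⟨r, hr, hq⟩ := hD q
  obtain ⟨_, ⟨n, rfl⟩, h4⟩ := h3 r hr
  exact ⟨n, many_mono h4 hq le_rfl⟩

theorem exists_qstar (hP : CCC P) {U : Set W1} (hU : ¬ U.Countable) (q : W1 → P) :
    ∃ q0, ∀ q' ≤ q0, ¬ {ζ ∈ U | Compat q' (q ζ)}.Countable := by
  by_contra h
  push Not at h
  obtain ⟨A, h1, h2, h3⟩ := many_max hP {q' | {ζ ∈ U | Compat q' (q ζ)}.Countable}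
  refine hU ((h2.biUnion h1).mono fun ζ hζ => ?_)
  obtain ⟨q', h4, h5⟩ := h (q ζ)
  obtain ⟨a, ha, h6⟩ := h3 q' h5
  exact mem_iUnion₂.2 ⟨a, ha, hζ, many_symm (many_mono h6 h4 le_rfl)⟩

theorem exists_many (hP : CCC P) {U : Set W1} (hU : ¬ U.Countable) (q : W1 → P) :
    ∃ ξ ∈ U, ¬ {η ∈ U | Compat (q ξ) (q η)}.Countable := by
  obtain ⟨q0, h0⟩ := exists_qstar hP hU q
  have hne : {ζ ∈ U | Compat q0 (q ζ)}.Nonempty := by
    by_contra h
    exact h0 q0 le_rfl (by rw [not_nonempty_iff_eq_empty.1 h]; exact countable_empty)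
  obtain ⟨ξ, hξ, r, h1, h2⟩ := hne
  refine ⟨ξ, hξ, fun h => h0 r h1 (h.mono ?_)⟩
  exact fun η hη => ⟨hη.1, many_mono hη.2 h2 le_rfl⟩

theorem many_fin {U : Set W1} (q : W1 → P) (q0 : P)
    (h0 : ∀ q' ≤ q0, ¬ {ζ ∈ U | Compat q' (q ζ)}.Countable) (n : ℕ) :
    ∃ a : Fin n → W1, Function.Injective a ∧ (∀ i, a i ∈ U) ∧
      ∃ q' ≤ q0, ∀ i, q' ≤ q (a i) := by
  induction n with
  | zero => exact ⟨Fin.elim0, fun i => i.elim0, fun i => i.elim0, q0, le_rfl, fun i => i.elim0⟩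
  | succ n ih =>
    obtain ⟨a, h1, h2, q', h3, h4⟩ := ih
    have : ¬ {ζ ∈ U | Compat q' (q ζ)} ⊆ range a := fun h =>
      h0 q' h3 ((countable_range a).mono h)
    obtain ⟨ζ, ⟨h5, r, h6, h7⟩, h8⟩ := not_subset.1 this
    refine ⟨Fin.cons ζ a, Fin.cons_injective_iff.2 ⟨h8, h1⟩, fun i => ?_, r, h6.trans h3,
      fun i => ?_⟩
    · refine Fin.cases ?_ (fun j => ?_) i
      · simpa using h5
      · simpa using h2 j
    · refine Fin.cases ?_ (fun j => ?_) i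
      · simpa using h7
      · simpa using h6.trans (h4 j)

theorem exists_tuple (hP : CCC P) {U : Set W1} (hU : ¬ U.Countable) (q : W1 → P)
    (ι : Type) [Finite ι] :
    ∃ a : ι → W1, Function.Injective a ∧ (∀ i, a i ∈ U) ∧ ∃ q', ∀ i, q' ≤ q (a i) := by
  obtain ⟨q0, h0⟩ := exists_qstar hP hU q
  obtain ⟨n, ⟨e⟩⟩ := Finite.exists_equiv_fin ι
  obtain ⟨a, h1, h2, q', -, h3⟩ := many_fin q q0 h0 n
  exact ⟨a ∘ e, h1.comp e.injective, fun i => h2 _, q', fun i => h3 _⟩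

end Pool.Agent.P.MP_78a647_lc.Full
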