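import Pool.Agent.P.MP_78a647_lc.Full.Basic

namespace Pool.Agent.P.MP_78a647_lc.Full

open Set

namespace Rh

variable {X : Rh} {P : Type} [PartialOrder P] {p : W1 → ℕ → P}

theorem KK_empty [Nonempty P] : X.KK p ∅ :=
  ⟨Classical.arbitrary P, fun _ _ _ c hc => absurd hc (Finset.notMem_empty c)⟩

theorem KK_singleton [Nonempty P] (x : W1) : X.KK p {x} := by
  refine ⟨Classical.arbitrary P, fun k j h => ?_⟩
  rw [Finset.image_singleton, Finset.card_singleton] at h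
  omega

theorem Wit.le {B : Finset W1} {q q' : P} (h : X.Wit p B q) (h2 : q' ≤ q) : X.Wit p B q' := by
  intro k j h3 c hc z hz
  obtain ⟨n, h4, h5⟩ := h k j h3 c hc z hz
  exact ⟨n, h4, h2.trans h5⟩

theorem Cov.mono {l : ℕ} {V V' : Set W1} (h : X.Cov p l V) (h2 : V' ⊆ V) : X.Cov p l V' := by
  obtain ⟨B, h3, h4⟩ := h
  exact ⟨B, h3, fun a ha => h4 a (h2 ha)⟩

theorem wit_ext (H1 : ∀ ξ q, ∃ n, Compat q (p ξ n)) (E : Finset W1) (q : P) :
    ∃ q' ≤ q, ∃ l, ∀ z ∈ E, ∃ n < l, q' ≤ p z n := by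
  induction E using Finset.induction_on with
  | empty => exact ⟨q, le_rfl, 0, fun z hz => absurd hz (Finset.notMem_empty z)⟩
  | insert a E _ ih =>
    obtain ⟨q1, h1, l, h2⟩ := ih
    obtain ⟨n, q2, h3, h4⟩ := H1 a q1
    refine ⟨q2, h3.trans h1, max l (n + 1), fun z hz => ?_⟩
    rcases Finset.mem_insert.1 hz with rfl | hz
    · exact ⟨n, by omega, h4⟩
    · obtain ⟨i, h5, h6⟩ := h2 z hz
      exact ⟨i, by omega, h3.trans h6⟩

theorem wit_union {B B' : Finset W1} {q : P} {l n : ℕ} (h1 : X.Wit p B q) (h2 : X.Wit p B' q)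
    (h3 : ∀ k ≤ l, B.image (X.sig k) = B'.image (X.sig k)) (h4 : B.card ≤ n) (h5 : B'.card ≤ n)
    (h6 : ∀ c ∈ B ∪ B', ∀ z, X.R (2 * n) z c → ∃ i < l, q ≤ p z i) : X.Wit p (B ∪ B') q := by
  intro k j hj c hc z hz
  rcases le_or_gt k l with hk | hk
  · rw [Finset.image_union, ← h3 k hk, Finset.union_self] at hj
    rcases Finset.mem_union.1 hc with hc | hc
    · exact h1 k j hj c hc z hz
    · exact h2 k j (h3 k hk ▸ hj) c hc z hz
  · have h7 : ((B ∪ B').image (X.sig k)).card ≤ B.card + B'.card :=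
      Finset.card_image_le.trans (Finset.card_union_le B B')
    obtain ⟨i, h8, h9⟩ := h6 c hc z (hz.mono (by omega))
    exact ⟨i, h8.trans hk, h9⟩

theorem spade_count {W B : Finset W1} {l k : ℕ} (hlk : l ≤ k)
    (hW : ∀ x ∈ W, ∀ y ∈ W, x ≤ y → X.R k x y) (hB : ∀ x ∈ W, ∃ c ∈ B, X.R l x c) :
    W.card ≤ X.S l * (B.image (X.sig k)).card := by
  choose! ν hν1 hν2 using hB
  have h1 : W.card ≤ X.S l * (W.image fun x => X.sig k (ν x)).card := by
    refine Finset.card_le_mul_card_image W _ fun σ hσ => ?_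
    obtain ⟨x0, -, rfl⟩ := Finset.mem_image.1 hσ
    refine le_trans ?_ (nrm_le l (ν x0))
    refine le_trans ?_ (Finset.card_image_le (s := X.cl l (ν x0))
      (f := fun z => (X.nrm k z, X.ρ z (ν x0))))
    refine Finset.card_le_card_of_injOn (fun x => (X.nrm k x, X.ρ x (ν x))) ?_ ?_
    · intro x hx
      obtain ⟨hx1, hx2⟩ := Finset.mem_filter.1 (Finset.mem_coe.1 hx)
      have h2 : (X.nrm k x, X.ρ x (ν x)) ∈ X.sig k (ν x) :=
        Finset.mem_image.2 ⟨x, mem_cl.2 ((hν2 x hx1).mono hlk), rfl⟩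
      rw [hx2] at h2
      obtain ⟨z, hz1, hz2⟩ := Finset.mem_image.1 h2
      refine Finset.mem_coe.2 (Finset.mem_image.2 ⟨z, mem_cl.2 ⟨(mem_cl.1 hz1).1, ?_⟩, hz2⟩)
      exact (congrArg Prod.snd hz2).trans_le (hν2 x hx1).2
    · intro x hx y hy e
      have hx1 := (Finset.mem_filter.1 (Finset.mem_coe.1 hx)).1
      have hy1 := (Finset.mem_filter.1 (Finset.mem_coe.1 hy)).1
      have e1 : X.nrm k x = X.nrm k y := (Prod.ext_iff.1 e).1
      rcases lt_trichotomy x y with h | h | h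
      · exact absurd e1 (nrm_lt (hW x hx1 y hy1 h.le) h).ne
      · exact h
      · exact absurd e1 (nrm_lt (hW y hy1 x hx1 h.le) h).ne'
  refine h1.trans (Nat.mul_le_mul_left _ (Finset.card_le_card fun σ hσ => ?_))
  obtain ⟨x, hx, rfl⟩ := Finset.mem_image.1 hσ
  exact Finset.mem_image.2 ⟨ν x, hν1 x hx, rfl⟩

theorem spade_core (l : ℕ) {A : Set W1} (hA : ¬ A.Countable)
    (hc : ∀ V : Finset W1, (V : Set W1) ⊆ A → X.Cov p l V) :
    ∃ f : W1 → ℕ, ∀ ξ η, Compat (p ξ (f ξ)) (p η (f η)) := by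
  have hinf : A.Infinite := fun h => hA h.countable
  have h1 : ∀ j : ℕ, ∃ (W : Finset W1) (k : ℕ), (W : Set W1) ⊆ A ∧ 0 < k ∧ ∀ B : Finset W1,
      (∀ x ∈ W, ∃ c ∈ B, X.R l x c) → j + 2 ≤ (B.image (X.sig k)).card := by
    intro j
    obtain ⟨W, hW1, hW2⟩ := hinf.exists_subset_card_eq (X.S l * (j + 2) + 1)
    obtain ⟨k, hk⟩ := ((W ×ˢ W).image fun e => X.ρ e.1 e.2).bddAbove
    refine ⟨W, max k (l + 1), hW1, by omega, fun B hB => ?_⟩
    have h2 := spade_count (X := X) (W := W) (B := B) (l := l) (k := max k (l + 1)) (by omega)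
      (fun x hx y hy h => ⟨h, le_trans (hk (Finset.mem_coe.2 (Finset.mem_image.2
        ⟨(x, y), Finset.mem_product.2 ⟨hx, hy⟩, rfl⟩))) (le_max_left _ _)⟩) hB
    by_contra h
    have h3 := Nat.mul_le_mul_left (X.S l) (not_le.1 h).le
    omega
  choose W k hW hk hB using h1
  choose a ha1 ha2 using fun ξ => exists_gt_mem W1_Iio hA ξ
  have h2 : ∀ s : Finset W1, ∃ (g : (ξ : W1) → Fin (k (max (X.ρ ξ (a ξ)) l))) (q : P),
      ∀ ξ ∈ s, q ≤ p ξ (g ξ) := by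
    intro s
    obtain ⟨B, ⟨q, hq⟩, hB2⟩ := hc (s.biUnion fun ξ => insert (a ξ) (W (max (X.ρ ξ (a ξ)) l)))
      (by
        intro z hz
        obtain ⟨ξ, -, h3⟩ := Finset.mem_biUnion.1 (Finset.mem_coe.1 hz)
        rcases Finset.mem_insert.1 h3 with rfl | h3
        · exact ha1 ξ
        · exact hW _ (Finset.mem_coe.2 h3))
    have h3 : ∀ ξ, ∃ n : Fin (k (max (X.ρ ξ (a ξ)) l)), ξ ∈ s → q ≤ p ξ n := by
      intro ξ
      by_cases hξ : ξ ∈ s
      · obtain ⟨c, hc1, hc2⟩ := hB2 (a ξ) (Finset.mem_coe.2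
          (Finset.mem_biUnion.2 ⟨ξ, hξ, Finset.mem_insert_self _ _⟩))
        obtain ⟨n, hn, hn2⟩ := hq (k (max (X.ρ ξ (a ξ)) l)) (max (X.ρ ξ (a ξ)) l)
          (hB _ B fun x hx => hB2 x (Finset.mem_coe.2
            (Finset.mem_biUnion.2 ⟨ξ, hξ, Finset.mem_insert_of_mem hx⟩))) c hc1 ξ
          (((R_rho (ha2 ξ).le).mono (le_max_left _ _)).trans (hc2.mono (le_max_right _ _)))
        exact ⟨⟨n, hn⟩, fun _ => hn2⟩
      · exact ⟨⟨0, hk _⟩, fun h => absurd h hξ⟩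
    choose g hg using h3
    exact ⟨g, q, hg⟩
  choose g q hg using h2
  obtain ⟨χ, hχ⟩ := Finset.rado_selection g
  refine ⟨fun ξ => χ ξ, fun ξ η => ?_⟩
  obtain ⟨t, ht1, ht2⟩ := hχ {ξ, η}
  have e1 : ξ ∈ ({ξ, η} : Finset W1) := Finset.mem_insert_self _ _
  have e2 : η ∈ ({ξ, η} : Finset W1) := Finset.mem_insert_of_mem (Finset.mem_singleton_self _)
  refine ⟨q t, ?_, ?_⟩
  · show q t ≤ p ξ (χ ξ)
    rw [ht2 ξ e1]
    exact hg t ξ (ht1 e1)
  · show q t ≤ p η (χ η)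
    rw [ht2 η e2]
    exact hg t η (ht1 e2)

theorem spade (hno : ¬ ∃ f : W1 → ℕ, ∀ ξ η, Compat (p ξ (f ξ)) (p η (f η)))
    (ι : Type) [Finite ι] [Nonempty ι] (l : ℕ) {U : Set W1} (hU : ¬ U.Countable) (a : W1 → W1)
    (ha : InjOn a U) :
    ∃ (w : ℕ) (η : Fin w → W1), (∀ u, η u ∈ U) ∧
      ∀ c : Fin w → ι, ∃ i, ¬ X.Cov p l {z | ∃ u, c u = i ∧ z = a (η u)} := by
  classical
  by_contra hcon
  push Not at hcon
  have h1 : ∀ s : Finset W1, ∃ g : W1 → ι, ∀ i,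
      X.Cov p l {z | ∃ x ∈ s, x ∈ U ∧ g x = i ∧ z = a x} := by
    intro s
    obtain ⟨c, hc⟩ := hcon (s.filter (· ∈ U)).card
      (fun u => ((s.filter (· ∈ U)).equivFin.symm u : W1))
      fun u => (Finset.mem_filter.1 ((s.filter (· ∈ U)).equivFin.symm u).2).2
    refine ⟨fun x => if h : x ∈ s.filter (· ∈ U) then c ((s.filter (· ∈ U)).equivFin ⟨x, h⟩)
      else Classical.arbitrary ι, fun i => (hc i).mono ?_⟩
    rintro z ⟨x, hx1, hx2, hx3, rfl⟩
    have hx : x ∈ s.filter (· ∈ U) := Finset.mem_filter.2 ⟨hx1, hx2⟩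
    refine ⟨(s.filter (· ∈ U)).equivFin ⟨x, hx⟩, ?_, by simp⟩
    simpa only [dif_pos hx] using hx3
  choose g hg using h1
  obtain ⟨χ, hχ⟩ := Finset.rado_selection (β := fun _ => ι) g
  obtain ⟨i, hi⟩ := exists_uncountable_fibre hU χ
  refine hno (spade_core (X := X) l (A := a '' {x ∈ U | χ x = i}) (fun h => hi ?_) fun V hV => ?_)
  · exact countable_of_injective_of_countable_image (ha.mono fun x hx => hx.1) h
  · have h2 : ∀ z ∈ V, ∃ x, (x ∈ U ∧ χ x = i) ∧ a x = z := fun z hz => hV (Finset.mem_coe.2 hz)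
    choose! b hb1 hb2 using h2
    obtain ⟨t, ht1, ht2⟩ := hχ (V.image b)
    refine (hg t i).mono fun z hz => ?_
    have hz' := Finset.mem_coe.1 hz
    have h3 : b z ∈ V.image b := Finset.mem_image_of_mem b hz'
    exact ⟨b z, ht1 h3, (hb1 z hz').1, (ht2 _ h3).symm.trans (hb1 z hz').2, (hb2 z hz').symm⟩

end Rh

end Pool.Agent.P.MP_78a647_lc.Full
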