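import Pool.Agent.P.MP_78a647_lc.Full.FamL
import Pool.Agent.P.MP_78a647_lc.Full.Spade
import Pool.Agent.P.MP_78a647_lc.Full.Many

namespace Pool.Agent.P.MP_78a647_lc.Full

open Set

/-- The least element of the level `j` section of `x` which is not below `δ`. -/
noncomputable def stage1M (X : Rh) (δ : W1) (j : ℕ) (x : W1) : W1 := mn {z | X.R j z x ∧ δ ≤ z} x

/-- The least position outside the root in the level `j` section of the position `a`. -/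
noncomputable def stage1N {X : Rh} (F : Fam X) (j : ℕ) (a : Fin (F.m + 1)) : Fin (F.m + 1) :=
  mn {u | F.Rt j u a ∧ F.r ≤ u} a

/-- `x` and `y` have the same trace below `δ`. -/
def stage1Tr (X : Rh) (δ x y : W1) : Prop := ∀ z ≤ δ, X.ρ z x = X.ρ z y

/-- `y` and `y'` look the same from `x` above `δ`. -/
def stage1Sm (X : Rh) (δ x y y' : W1) : Prop := ∀ j,
  (stage1M X δ j x = stage1M X δ j y ↔ stage1M X δ j x = stage1M X δ j y') ∧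
    (stage1M X δ j x ≠ stage1M X δ j y →
      X.sg (stage1M X δ j x) (stage1M X δ j y) = X.sg (stage1M X δ j x) (stage1M X δ j y'))

theorem stage1M_spec {X : Rh} {δ x : W1} (h : δ ≤ x) (j : ℕ) :
    X.R j (stage1M X δ j x) x ∧ δ ≤ stage1M X δ j x ∧
      ∀ z, X.R j z x → δ ≤ z → stage1M X δ j x ≤ z := by
  have := mn_spec (A := {z | X.R j z x ∧ δ ≤ z}) x ⟨x, Rh.R_refl j x, h⟩
  exact ⟨this.1.1, this.1.2, fun z h1 h2 => this.2 z ⟨h1, h2⟩⟩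

theorem stage1M_eq {X : Rh} {δ x y : W1} {j : ℕ} (h : δ ≤ x) (h2 : X.R j x y) :
    stage1M X δ j x = stage1M X δ j y := by
  obtain ⟨a1, a2, a3⟩ := stage1M_spec (X := X) h j
  obtain ⟨b1, b2, b3⟩ := stage1M_spec (X := X) (h.trans h2.1) j
  have h3 := b3 _ (a1.trans h2) a2
  exact le_antisymm (a3 _ (b1.tri h2 (h3.trans a1.1)) b2) h3

section
variable {X : Rh} {F : Fam X} {δ : W1} {j : ℕ} {a b b' : Fin (F.m + 1)}

theorem stage1N_spec (hδ : δ ∈ F.T) (ha : F.r ≤ a) : F.Rt j (stage1N F j a) a ∧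
    F.r ≤ stage1N F j a ∧ ∀ u, F.Rt j u a → F.r ≤ u → stage1N F j a ≤ u := by
  have := mn_spec (A := {u | F.Rt j u a ∧ F.r ≤ u}) a
    ⟨a, (F.R_iff hδ j a a).1 (Rh.R_refl j _), ha⟩
  exact ⟨this.1.1, this.1.2, fun z h1 h2 => this.2 z ⟨h1, h2⟩⟩

theorem stage1_move (hδ : δ ∈ F.T) (hb : δ ≤ F.h δ b) (ht : stage1Tr X δ (F.h δ a) (F.h δ b))
    {u : Fin (F.m + 1)} (hu : F.h δ u ≤ δ) (h : F.Rt j u a) : F.Rt j u b :=
  (F.R_iff hδ j u b).1 ⟨hu.trans hb, ht _ hu ▸ ((F.R_iff hδ j u a).2 h).2⟩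

theorem stage1_A (hδ : δ ∈ F.T) (hr : ∀ u < F.r, F.h δ u < δ) (hb : δ ≤ F.h δ b)
    (ht : stage1Tr X δ (F.h δ a) (F.h δ b)) : F.A j a b = stage1N F j a := by
  unfold Fam.A stage1N
  congr 1
  ext u
  refine and_congr_right fun h => ⟨fun h2 => not_lt.1 fun h3 => h2 ⟨h3, ?_⟩,
    fun h2 h3 => not_lt.2 h2 h3.1⟩
  exact stage1_move hδ hb ht (hr u h3).le h

theorem stage1_root (hr : ∀ u < F.r, F.h δ u < δ) (ha : δ ≤ F.h δ a) : F.r ≤ a :=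
  not_lt.1 fun h => not_lt.2 ha (hr a h)

theorem stage1_low (hδ : δ ∈ F.T) (hr : ∀ u < F.r, F.h δ u < δ) (ha : δ ≤ F.h δ a)
    (hb : δ ≤ F.h δ b) (ht : stage1Tr X δ (F.h δ a) (F.h δ b))
    (h : F.h δ (stage1N F j a) < δ) : stage1N F j b = stage1N F j a := by
  obtain ⟨a1, a2, a3⟩ := stage1N_spec (j := j) hδ (stage1_root hr ha)
  obtain ⟨b1, b2, b3⟩ := stage1N_spec (j := j) hδ (stage1_root hr hb)
  have h1 := b3 _ (stage1_move hδ hb ht h.le a1) a2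
  exact le_antisymm h1 (a3 _ (stage1_move hδ ha (fun z hz => (ht z hz).symm)
    (((F.mono δ hδ).monotone h1).trans h.le) b1) b2)

theorem stage1_high (hδ : δ ∈ F.T) (hr : ∀ u < F.r, F.h δ u < δ) (ha : δ ≤ F.h δ a) (hj : j ≤ F.l)
    (h : δ ≤ F.h δ (stage1N F j a)) : F.h δ (stage1N F j a) = stage1M X δ j (F.h δ a) := by
  obtain ⟨a1, a2, a3⟩ := stage1N_spec (j := j) hδ (stage1_root hr ha)
  refine (mn_eq (A := {z | X.R j z (F.h δ a) ∧ δ ≤ z}) _ ⟨(F.R_iff hδ j _ _).2 a1, h⟩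
    fun y hy => ?_).symm
  obtain ⟨u, rfl⟩ := (F.rng δ hδ y).1 ((hy.1.mono hj).trans (F.R_top hδ a))
  exact (F.mono δ hδ).monotone (a3 u ((F.R_iff hδ j _ _).1 hy.1) (stage1_root hr hy.2))

theorem stage1_sA (hδ : δ ∈ F.T) (hr : ∀ u < F.r, F.h δ u < δ) (ha : δ ≤ F.h δ a)
    (hb : δ ≤ F.h δ b) (hb' : δ ≤ F.h δ b') (ht : stage1Tr X δ (F.h δ a) (F.h δ b))
    (ht' : stage1Tr X δ (F.h δ a) (F.h δ b')) (hs : stage1Sm X δ (F.h δ a) (F.h δ b) (F.h δ b'))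
    (hj : j ≤ F.l) (θ : Fin (F.m + 1) → Bool) : F.sA θ a b j = F.sA θ a b' j := by
  have st : stage1Tr X δ (F.h δ b) (F.h δ a) := fun z hz => (ht z hz).symm
  have st' : stage1Tr X δ (F.h δ b') (F.h δ a) := fun z hz => (ht' z hz).symm
  unfold Fam.sA
  rw [stage1_A hδ hr hb ht, stage1_A hδ hr hb' ht', stage1_A hδ hr ha st, stage1_A hδ hr ha st']
  rcases lt_or_ge (F.h δ (stage1N F j a)) δ with h | h
  · rw [stage1_low hδ hr ha hb ht h, stage1_low hδ hr ha hb' ht' h]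
  · have h1 : δ ≤ F.h δ (stage1N F j b) := not_lt.1 fun h1 =>
      not_lt.2 h (stage1_low hδ hr hb ha st h1 ▸ h1)
    have h2 : δ ≤ F.h δ (stage1N F j b') := not_lt.1 fun h1 =>
      not_lt.2 h (stage1_low hδ hr hb' ha st' h1 ▸ h1)
    obtain ⟨h3, h4⟩ := hs j
    rw [← stage1_high hδ hr ha hj h, ← stage1_high hδ hr hb hj h1,
      ← stage1_high hδ hr hb' hj h2] at h3 h4
    rw [(F.mono δ hδ).injective.eq_iff, (F.mono δ hδ).injective.eq_iff] at h3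
    by_cases e : stage1N F j a = stage1N F j b
    · rw [if_pos e, if_pos (h3.1 e)]
    · have e' := mt h3.2 e
      rw [if_neg e, if_neg e', ← F.sgn δ hδ δ hδ _ _ e, ← F.sgn δ hδ δ hδ _ _ e']
      exact h4 ((F.mono δ hδ).injective.ne e)

end

theorem stage1_trace (X : Rh) (δ : W1) {U : Set W1} (hU : ¬ U.Countable) (β : W1 → W1)
    (hβ : ∀ ξ ∈ U, δ ≤ β ξ) :
    ∃ U1 ⊆ U, ¬ U1.Countable ∧ ∀ ξ ∈ U1, ∀ η ∈ U1, stage1Tr X δ (β ξ) (β η) := by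
  obtain ⟨L, h1⟩ := exists_uncountable_fibre hU fun ξ => X.ρ δ (β ξ)
  obtain ⟨g, h2⟩ := exists_uncountable_fibre h1 fun ξ (z : X.cl L δ) => X.ρ z (β ξ)
  refine ⟨_, fun ξ h => h.1.1, h2, fun ξ hξ η hη z hz => ?_⟩
  by_cases h : X.R L z δ
  · exact congrFun (hξ.2.trans hη.2.symm) ⟨z, Rh.mem_cl.2 h⟩
  · rw [← Rh.rho_blur ⟨hβ ξ hξ.1.1, hξ.1.2.le⟩ hz h, ← Rh.rho_blur ⟨hβ η hη.1.1, hη.1.2.le⟩ hz h]

theorem stage1_same (X : Rh) {δ x : W1} (hx : δ ≤ x) {U : Set W1} (hU : ¬ U.Countable)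
    (β : W1 → W1) (hβ : ∀ ξ ∈ U, x ≤ β ξ) :
    ∃ U1 ⊆ U, ¬ U1.Countable ∧ ∀ η ∈ U1, ∀ η' ∈ U1, stage1Sm X δ x (β η) (β η') := by
  classical
  obtain ⟨L, h1⟩ := exists_uncountable_fibre hU fun η => X.ρ x (β η)
  obtain ⟨g, h2⟩ := exists_uncountable_fibre h1 fun η (j : Fin L) =>
    (decide (stage1M X δ j x = stage1M X δ j (β η)), X.sg (stage1M X δ j x) (stage1M X δ j (β η)))
  refine ⟨_, fun ξ h => h.1.1, h2, fun η hη η' hη' j => ?_⟩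
  rcases lt_or_ge j L with h | h
  · have := congrFun (hη.2.trans hη'.2.symm) ⟨j, h⟩
    simp only [Prod.mk.injEq, decide_eq_decide] at this
    exact ⟨this.1, fun _ => this.2⟩
  · have e1 := stage1M_eq (j := j) hx ⟨hβ η hη.1.1, hη.1.2.le.trans h⟩
    have e2 := stage1M_eq (j := j) hx ⟨hβ η' hη'.1.1, hη'.1.2.le.trans h⟩
    exact ⟨iff_of_true e1 e2, fun h => absurd e1 h⟩

/-- The data of one member of the first stage. -/
def stage1Good {X : Rh} {P : Type} [PartialOrder P] (p : W1 → ℕ → P) (F0 : Fam X) (p0 : W1 → P)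
    (δ : W1) (w l : ℕ) (a : Option (Fin w) → W1) (q : Fin w → P) (c : W1) : Prop :=
  (∀ i, a i ∈ F0.T ∧ δ < F0.h (a i) F0.r ∧ ∀ v, X.R l (F0.h (a i) v) c) ∧ δ ≤ c ∧
  (∀ u, q u ≤ p0 (a none) ∧ q u ≤ p0 (a (some u)) ∧
    stage1Tr X δ (F0.top (a none)) (F0.top (a (some u))) ∧
    ∀ u', stage1Sm X δ (F0.top (a none)) (F0.top (a (some u))) (F0.top (a (some u')))) ∧
  ∀ c : Fin w → Fin (F0.m + 1),
    ∃ i, ¬ X.Cov p F0.l {z | ∃ u, c u = i ∧ z = F0.h (a (some u)) F0.r}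

theorem stage1_one {X : Rh} {P : Type} [PartialOrder P] {p : W1 → ℕ → P}
    (hP : CCC P) (hno : ¬ ∃ f : W1 → ℕ, ∀ ξ η, Compat (p ξ (f ξ)) (p η (f η)))
    (F0 : Fam X) (p0 : W1 → P) (δ : W1) :
    ∃ k : ℕ × ℕ, F0.l < k.2 ∧ ∃ a q c, stage1Good p F0 p0 δ k.1 k.2 a q c := by
  have hle : ∀ ξ ∈ F0.T, δ < F0.h ξ F0.r → δ ≤ F0.top ξ := fun ξ h1 h2 =>
    h2.le.trans (F0.R_top h1 _).1
  obtain ⟨U1, s1, h1, t1⟩ := stage1_trace X δ (F0.above δ) F0.top fun ξ h => hle ξ h.1 h.2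
  obtain ⟨ξ, hξ, h2⟩ := exists_many hP h1 p0
  have h3 : ¬ {η ∈ {η ∈ U1 | Compat (p0 ξ) (p0 η)} | ξ < η}.Countable := fun h =>
    h2 ((h.union (countable_Iic W1_Iio ξ)).mono fun η hη =>
      (lt_or_ge ξ η).imp (fun h => ⟨hη, h⟩) id)
  obtain ⟨U3, s3, h4, t3⟩ := stage1_same X (hle ξ (s1 hξ).1 (s1 hξ).2) h3 F0.top fun η h =>
    (F0.inc ξ (s1 hξ).1 η (s1 h.1.1).1 h.2 _ _ (Fin.le_last _)).le
  obtain ⟨w, η, h5, h6⟩ := Rh.spade (X := X) hno (Fin (F0.m + 1)) F0.l h4 (fun ζ => F0.h ζ F0.r)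
    (F0.injOn_r.mono fun ζ h => (s1 (s3 h).1.1).1)
  choose q q1 q2 using fun u => (s3 (h5 u)).1.2
  let a : Option (Fin w) → W1 := fun i => i.elim ξ η
  have ha : ∀ i, a i ∈ U1 := fun i => by
    cases i with
    | none => exact hξ
    | some u => exact (s3 (h5 u)).1.1
  obtain ⟨c, hc⟩ := (finite_range fun i : Option (Fin w) × Fin (F0.m + 1) =>
    F0.h (a i.1) i.2).bddAbove
  obtain ⟨l, h7, h8⟩ := Rh.exists_level (X := X)
    (fun i : Option (Fin w) × Fin (F0.m + 1) => F0.h (a i.1) i.2) c (fun i => hc ⟨i, rfl⟩) F0.l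
  exact ⟨(w, l), h7, a, q, c, fun i => ⟨(s1 (ha i)).1, (s1 (ha i)).2, fun v => h8 (i, v)⟩,
    (s1 hξ).2.le.trans (h8 (none, F0.r)).1,
    fun u => ⟨q1 u, q2 u, t1 _ hξ _ (ha (some u)), fun u' => t3 _ (h5 u) _ (h5 u')⟩, h6⟩

theorem exists_St1 {X : Rh} {P : Type} [PartialOrder P] [Nonempty P] {p : W1 → ℕ → P}
    (hP : CCC P) (hno : ¬ ∃ f : W1 → ℕ, ∀ ξ η, Compat (p ξ (f ξ)) (p η (f η)))
    (F0 : Fam X) (p0 : W1 → P) : Nonempty (St1 p F0 p0) := by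
  choose K hK1 hK2 using stage1_one hP hno F0 p0
  obtain ⟨⟨w, l⟩, hT⟩ := exists_uncountable_fibre (Set.not_countable_univ (α := W1)) K
  have h1 : ∀ δ ∈ {δ ∈ univ | K δ = (w, l)}, ∃ a q c, stage1Good p F0 p0 δ w l a q c :=
    fun δ hδ => by
      have := hK2 δ
      rwa [hδ.2] at this
  choose! a q c hG using h1
  obtain ⟨F, pos, s1, e1, -, hr, e2⟩ := exists_fam X hT c (fun δ h => (hG δ h).2.1) l
    (fun δ (i : Option (Fin w) × Fin (F0.m + 1)) => F0.h (a δ i.1) i.2)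
    fun δ h i => ((hG δ h).1 i.1).2.2 i.2
  obtain ⟨δ0, h0⟩ := F.nonempty
  have hG0 := hG δ0 (s1 h0)
  have hle : ∀ i v, F0.r ≤ v → δ0 ≤ F.h δ0 (pos (i, v)) := fun i v hv => by
    rw [e2 δ0 h0]
    exact (hG0.1 i).2.1.le.trans ((F0.mono _ (hG0.1 i).1).monotone hv)
  have hl : F0.l < F.l := by
    have := hK1 δ0
    rwa [(s1 h0).2, ← e1] at this
  refine ⟨⟨F, w, q, fun δ => a δ none, fun u δ => a δ (some u), fun v => pos (none, v),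
    fun u v => pos (some u, v), hl, fun u => ⟨fun δ h => ?_, fun v hv => ?_⟩,
    fun u => ⟨fun δ h => ?_, fun v hv => ?_⟩, fun θ => ?_, fun δ h => (hG δ (s1 h)).2.2.2⟩⟩
  · exact ⟨((hG δ (s1 h)).1 none).1, ((hG δ (s1 h)).2.2.1 u).1, fun v => e2 δ h (none, v)⟩
  · exact stage1_root (hr δ0 h0) (hle none v hv)
  · exact ⟨((hG δ (s1 h)).1 (some u)).1, ((hG δ (s1 h)).2.2.1 u).2.1, fun v => e2 δ h (some u, v)⟩
  · exact stage1_root (hr δ0 h0) (hle (some u) v hv)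
  · rcases isEmpty_or_nonempty (Fin w) with hw | ⟨⟨u0⟩⟩
    · exact ⟨fun _ => F.r, fun _ => false, fun u => hw.elim u⟩
    have e3 : ∀ i, F.h δ0 (pos (i, Fin.last _)) = F0.top (a δ0 i) := fun i => e2 δ0 h0 _
    have l3 : ∀ i, δ0 ≤ F.h δ0 (pos (i, Fin.last _)) := fun i => hle i _ (Fin.le_last _)
    have t3 : ∀ u, stage1Tr X δ0 (F.h δ0 (pos (none, Fin.last _)))
        (F.h δ0 (pos (some u, Fin.last _))) := fun u => by
      rw [e3, e3]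
      exact (hG0.2.2.1 u).2.2.1
    refine ⟨fun j => stage1N F j (pos (none, Fin.last _)),
      F.sA θ (pos (none, Fin.last _)) (pos (some u0, Fin.last _)), fun u j hj =>
      ⟨(stage1N_spec h0 (stage1_root (hr δ0 h0) (l3 none))).2.1,
        stage1_A h0 (hr δ0 h0) (l3 _) (t3 u),
        stage1_sA h0 (hr δ0 h0) (l3 _) (l3 _) (l3 _) (t3 u) (t3 u0) ?_ hj θ⟩⟩
    rw [e3, e3, e3]
    exact (hG0.2.2.1 u).2.2.2 u0

end Pool.Agent.P.MP_78a647_lc.Full
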