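import Pool.Agent.P.MP_78a647_lc.Full.FamL
import Pool.Agent.P.MP_78a647_lc.Full.Many

/-!
The tower of centered copies, giving control of the number of sign changes.
-/

namespace Pool.Agent.P.MP_78a647_lc.Full

open Set Rh

variable {X : Rh} {Q : Type} [PartialOrder Q]

theorem copies (hQ : CCC Q) (F : Fam X) (q : W1 → Q) (ι : Type) [Finite ι] :
    ∃ (F' : Fam X) (q' : W1 → Q) (e : ι → Fin (F.m + 1) → Fin (F'.m + 1)) (a : ι → W1 → W1),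
      F.l ≤ F'.l ∧ (∀ i, Emb F q F' q' (e i) (a i)) ∧
        ∀ ζ ∈ F'.T, Function.Injective fun i => a i ζ := by
  have h0 : ∀ γ, ∃ (a : ι → W1) (q' : Q) (β : W1) (l : ℕ), Function.Injective a ∧
      (∀ i, a i ∈ F.T ∧ γ < F.h (a i) F.r ∧ q' ≤ q (a i)) ∧ γ ≤ β ∧ F.l ≤ l ∧
      ∀ e : ι × Fin (F.m + 1), X.R l (F.h (a e.1) e.2) β := by
    intro γ
    obtain ⟨a, h1, h2, q', h3⟩ := exists_tuple hQ (F.above γ) q ι
    obtain ⟨β, hβ⟩ := exists_gt_of_countable W1_Iio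
      ((countable_range fun e : ι × Fin (F.m + 1) => F.h (a e.1) e.2).insert γ)
    obtain ⟨l, h4, h5⟩ := exists_level (X := X) (fun e : ι × Fin (F.m + 1) => F.h (a e.1) e.2) β
      (fun e => (hβ _ (Or.inr ⟨e, rfl⟩)).le) F.l
    exact ⟨a, q', β, l, h1, fun i => ⟨(h2 i).1, (h2 i).2, h3 i⟩, (hβ γ (Or.inl rfl)).le, h4.le, h5⟩
  choose a q' β lv h1 h2 h3 h4 h5 using h0
  obtain ⟨l, hl⟩ := exists_uncountable_fibre (S := (univ : Set W1)) not_countable_univ lv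
  obtain ⟨F', pos, f1, f2, -, f4, f5⟩ := exists_fam X hl β (fun ζ _ => h3 ζ) l
    (fun γ (e : ι × Fin (F.m + 1)) => F.h (a γ e.1) e.2) fun ζ hζ e => hζ.2 ▸ h5 ζ e
  obtain ⟨ζ0, hζ0⟩ := F'.nonempty
  refine ⟨F', q', fun i u => pos (i, u), fun i γ => a γ i, ?_, fun i => ⟨fun ζ hζ =>
    ⟨(h2 ζ i).1, (h2 ζ i).2.2, fun u => f5 ζ hζ (i, u)⟩, fun u hu => not_lt.1 fun h => ?_⟩,
    fun ζ _ => h1 ζ⟩
  · rw [f2, ← (f1 hζ0).2]
    exact h4 ζ0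
  · have := f4 ζ0 hζ0 _ h
    rw [f5 ζ0 hζ0] at this
    exact this.asymm ((h2 ζ0 i).2.1.trans_le ((F.mono _ (h2 ζ0 i).1).monotone hu))

theorem Emb.comp {F1 F F' : Fam X} {q1 q q' : W1 → Q} {φ : Fin (F1.m + 1) → Fin (F.m + 1)}
    {a : W1 → W1} {e : Fin (F.m + 1) → Fin (F'.m + 1)} {c : W1 → W1} (h1 : Emb F1 q1 F q φ a)
    (h2 : Emb F q F' q' e c) : Emb F1 q1 F' q' (fun u => e (φ u)) fun ζ => a (c ζ) := by
  refine ⟨fun ζ hζ => ?_, fun u hu => h2.2 _ (h1.2 u hu)⟩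
  obtain ⟨b1, b2, b3⟩ := h2.1 ζ hζ
  obtain ⟨c1, c2, c3⟩ := h1.1 _ b1
  exact ⟨c1, b2.trans c2, fun u => (b3 _).trans (c3 u)⟩

theorem Emb.ne {F F' : Fam X} {q q' : W1 → Q} {e e' : Fin (F.m + 1) → Fin (F'.m + 1)}
    {c c' : W1 → W1} (h1 : Emb F q F' q' e c) (h2 : Emb F q F' q' e' c')
    (h : ∀ ζ ∈ F'.T, c ζ ≠ c' ζ) {u : Fin (F.m + 1)} (hu : F.r ≤ u) : e u ≠ e' u := by
  obtain ⟨ζ, hζ⟩ := F'.nonempty
  intro h3
  have h4 := (h1.1 ζ hζ).2.2 u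
  rw [h3, (h2.1 ζ hζ).2.2 u] at h4
  exact not_le.2 (F.eq_pos (h2.1 ζ hζ).1 (h1.1 ζ hζ).1 (h ζ hζ).symm h4).2 hu

theorem Emb.A_eq {F F' : Fam X} {q q' : W1 → Q} {e e' : Fin (F.m + 1) → Fin (F'.m + 1)}
    {c c' : W1 → W1} (h1 : Emb F q F' q' e c) (h2 : Emb F q F' q' e' c') (hl : F.l ≤ F'.l) :
    F'.A F.l (e (Fin.last _)) (e' (Fin.last _)) = e F.r := by
  obtain ⟨ζ, hζ⟩ := F'.nonempty
  obtain ⟨ζ', hζ', hlt⟩ := exists_gt_mem W1_Iio F'.unc ζ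
  have h3 := F'.anc_pos hζ hζ' hlt.ne hl (h1.2 _ (Fin.le_last _)) (e' (Fin.last _))
  rw [(h1.1 ζ hζ).2.2, (h2.1 ζ' hζ').2.2, F.anc_pos (h1.1 ζ hζ).1 (h2.1 ζ' hζ').1
    (h1.lt h2 hζ hζ' hlt).ne le_rfl (Fin.le_last _), F.A_top (Fin.le_last _) (Fin.le_last _),
    ← (h1.1 ζ hζ).2.2] at h3
  exact ((F'.mono ζ hζ).injective h3).symm

theorem block (F : Fam X) {a b : Fin (F.m + 1)} (ha : F.r ≤ a) (hb : F.r ≤ b) {l : ℕ}
    (hn : F.A l a b ≠ F.A l b a) (θ : Fin (F.m + 1) → Bool) :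
    ∃ (c : ℕ) (β : Bool), ∀ e : Bool,
      chg (F.sA (fun u => xor (θ u) e) a b) l F.l = c + (xor β e).toNat ∧
      chg (F.sA (fun u => xor (θ u) e) b a) l F.l = c + (xor β (!e)).toNat := by
  classical
  have h0 : ∃ j, F.A j a b = F.A j b a := ⟨F.l, by rw [F.A_top ha hb, F.A_top hb ha]⟩
  have h1 : l < Nat.find h0 :=
    not_le.1 fun h => hn (F.rigid_mono ha hb h (Nat.find_spec h0))
  have h2 : Nat.find h0 ≤ F.l := Nat.find_min' h0 (by rw [F.A_top ha hb, F.A_top hb ha])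
  have h3 : ∀ j, Nat.find h0 - 1 < j → F.A j a b = F.A j b a :=
    fun j hj => F.rigid_mono ha hb (by omega) (Nat.find_spec h0)
  have h4 : ∀ j ≤ Nat.find h0 - 1, F.A j a b ≠ F.A j b a :=
    fun j hj => Nat.find_min h0 (by omega)
  obtain ⟨c, β, h⟩ := chg_block (fun j => F.σ (F.A j a b) (F.A j b a)) (fun j => θ (F.A j a b))
    (a := l) (t := Nat.find h0 - 1) (b := F.l) (by omega) (by omega)
  refine ⟨c, β, fun e => ⟨?_, ?_⟩⟩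
  · rw [h false e _ (fun j _ hj => by simp [Fam.sA, h4 j hj])
      fun j hj _ => by simp [Fam.sA, h3 j hj]]
    simp
  · rw [h true e _ (fun j _ hj => by
      simp only [Fam.sA, if_neg (h4 j hj).symm, F.σ_anti (h4 j hj)]; simp)
      fun j hj _ => by simp [Fam.sA, h3 j hj]]
    simp

theorem Ctrl.step {F1 F : Fam X} {q1 q : W1 → Q} {C : Type} [Finite C] {κ : ℕ} (hQ : CCC Q)
    (h : Ctrl F1 q1 C F q κ) : ∃ (F' : Fam X) (q' : W1 → Q), Ctrl F1 q1 C F' q' (κ + 1) := by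
  classical
  obtain ⟨F', q', e, c, hl, he, hc⟩ := copies hQ F q (Option (Fin (F.m + 1) → C))
  refine ⟨F', q', h.1.trans hl, fun J θ => ?_⟩
  have := Fintype.ofFinite C
  obtain ⟨i, i', hne, hJ⟩ := Fintype.exists_ne_map_eq_of_card_lt
    (fun (i : Option (Fin (F.m + 1) → C)) u => J (e i u)) (by simp)
  have n1 : ∀ ζ ∈ F'.T, c i ζ ≠ c i' ζ := fun ζ hζ => (hc ζ hζ).ne hne
  have n2 : ∀ u, F.r ≤ u → e i u ≠ e i' u := fun u hu => (he i).ne (he i') n1 hu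
  have r1 : ∀ i, F'.r ≤ e i (Fin.last _) := fun i => (he i).2 _ (Fin.le_last _)
  obtain ⟨c0, β, hb⟩ := block F' (l := F.l) (r1 i) (r1 i') (by
    rw [(he i).A_eq (he i') hl, (he i').A_eq (he i) hl]
    exact n2 _ le_rfl) θ
  obtain ⟨J0, θ0, C0, ε, hC⟩ := h.2 (fun u => J (e i u)) fun u => F'.σ (e i u) (e i' u)
  refine ⟨J0, θ0, C0 + c0, xor β ε, fun k hk => ?_⟩
  obtain ⟨k', k1, k2⟩ : ∃ k' ≤ κ, k = k' + (xor k'.bodd k.bodd).toNat := by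
    rcases hk.lt_or_eq with h1 | rfl
    · exact ⟨k, by omega, by simp⟩
    · exact ⟨κ, le_rfl, by simp⟩
  obtain ⟨φ, a, ψ, b, e1, e2, e3, e4⟩ := hC k' k1
  have key : ∀ j j', (∀ u, F.r ≤ u → e j u ≠ e j' u) → (∀ u, F.r ≤ u →
      F'.σ (e j u) (e j' u) = xor (F'.σ (e i u) (e i' u)) (xor ε k'.bodd)) →
      chg (F'.sA (fun u => xor (θ u) (xor (xor β ε) k.bodd)) (e j (Fin.last _))
        (e j' (Fin.last _))) F.l F'.l = c0 + (xor k'.bodd k.bodd).toNat →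
      ∀ ζ ∈ F'.T, ∀ ζ' ∈ F'.T, ζ < ζ' →
        F'.Sgn ζ ζ' (fun u => xor (θ u) (xor (xor β ε) k.bodd)) →
        F1.Sgn (a (c j ζ)) (b (c j' ζ')) θ0 ∧
          chg (X.s (F1.top (a (c j ζ))) (F1.top (b (c j' ζ')))) F1.l F'.l = C0 + c0 + k := by
    intro j j' m1 m2 m3 ζ hζ ζ' hζ' hlt hs
    obtain ⟨a1, -, a3⟩ := (he j).1 ζ hζ
    obtain ⟨b1, -, b3⟩ := (he j').1 ζ' hζ'
    have hlt' := (he j).lt (he j') hζ hζ' hlt
    obtain ⟨d1, d2⟩ := e4 _ a1 _ b1 hlt' fun u hu => by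
      rw [← a3, ← b3, F'.sgn ζ hζ ζ' hζ' _ _ (m1 u hu), m2 u hu]
    refine ⟨d1, ?_⟩
    rw [chg_add _ h.1 hl, d2, chg_congr (g := F'.sA (fun u => xor (θ u) (xor (xor β ε) k.bodd))
      (e j (Fin.last _)) (e j' (Fin.last _))) fun n g1 g2 => ?_, m3]
    · omega
    rw [← F'.s_pos hζ hζ' hlt.ne g2 (r1 j) (r1 j') hs, a3, b3]
    unfold Fam.top
    rw [← (e1.1 _ a1).2.2, ← (e2.1 _ b1).2.2]
    refine s_blur ((F.R_top a1 _).mono g1) ((F.R_top b1 _).mono g1)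
      (F.inc _ a1 _ b1 hlt' _ _ (e2.2 _ (Fin.le_last _))) fun g3 => ?_
    rw [← a3, ← b3] at g3
    exact F'.not_R hζ hζ' hlt.ne ((he j).2 _ (e1.2 _ (Fin.le_last _))) _ (g3.mono g2)
  cases ho : xor ε k'.bodd with
  | false =>
    refine ⟨_, _, _, _, e1.comp (he i), e2.comp (he i'), e3, key i i' n2 (by simp [ho]) ?_⟩
    rw [(hb _).1]
    revert ho
    cases β <;> cases ε <;> cases k'.bodd <;> cases k.bodd <;> simp
  | true =>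
    refine ⟨_, _, _, _, e1.comp (he i'), e2.comp (he i), fun u => ?_,
      key i' i (fun u hu => (n2 u hu).symm) (fun u hu => ?_) ?_⟩
    · rw [← e3, congrFun hJ]
    · rw [ho, F'.σ_anti (n2 u hu)]
      simp
    · rw [(hb _).2]
      revert ho
      cases β <;> cases ε <;> cases k'.bodd <;> cases k.bodd <;> simp

theorem tower {X : Rh} {Q : Type} [PartialOrder Q] (hQ : CCC Q) (F1 : Fam X) (q1 : W1 → Q)
    (C : Type) [Finite C] (κ : ℕ) : ∃ (F : Fam X) (q : W1 → Q), Ctrl F1 q1 C F q κ := by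
  induction κ with
  | zero =>
    have e : Emb F1 q1 F1 q1 id id := ⟨fun ζ hζ => ⟨hζ, le_rfl, fun _ => rfl⟩, fun _ h => h⟩
    refine ⟨F1, q1, le_rfl, fun J θ => ⟨J, θ, 0, false, fun k hk => ?_⟩⟩
    obtain rfl := Nat.le_zero.1 hk
    exact ⟨id, id, id, id, e, e, fun _ => rfl, fun ζ _ ζ' _ _ hs =>
      ⟨fun u hu => by simpa using hs u hu, chg_self _ _⟩⟩
  | succ κ ih =>
    obtain ⟨F, q, h⟩ := ih
    exact h.step hQ

end Pool.Agent.P.MP_78a647_lc.Full
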