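import Pool.Agent.P.MP_78a647_lc.Full.RhEx
import Pool.Agent.P.MP_78a647_lc.Full.Reduce
import Pool.Agent.P.MP_78a647_lc.Full.Run
import Pool.Agent.P.MP_78a647_lc.Full.Stage1
import Pool.Agent.P.MP_78a647_lc.Full.Tower

/-!
The two homogeneous parts of the complex are ccc, and their product is not.
-/

namespace Pool.Agent.P.MP_78a647_lc.Full

open Set Rh

variable {X : Rh} {P : Type} [PartialOrder P] {p : W1 → ℕ → P}

theorem half_mod {n a t M Z J : ℕ} (h : n = a + 2 * t + Z) (hJ : Z % (2 * M) = J) :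
    n / 2 ≡ (a + J) / 2 + t [MOD M] := by
  have h1 := Nat.div_add_mod Z (2 * M)
  have h2 : n / 2 = (a + J) / 2 + t + M * (Z / (2 * M)) := by
    rw [mul_assoc] at h1
    omega
  rw [h2]
  exact Nat.add_mul_mod_self_left _ _ _

theorem bodd_two (t : ℕ) (e : Bool) : (2 * t + e.toNat).bodd = e := by
  cases e <;> simp

/-- Two members of a uniform family with compatible conditions all of whose cross pairs outside
the root get the prescribed colour. -/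
theorem cross [Nonempty P] (hPC : PCCC) (hP : CCC P)
    (hno : ¬ ∃ f : W1 → ℕ, ∀ ξ η, Compat (p ξ (f ξ)) (p η (f η))) (F0 : Fam X) (q0 : W1 → P)
    (N : Nm) (hN : N.1 ⊆ Finset.range (X.S F0.l + 1) ×ˢ Finset.range (F0.l + 1)) :
    ∃ ξ ∈ F0.T, ∃ η ∈ F0.T, ξ < η ∧ Compat (q0 ξ) (q0 η) ∧ ∀ v v', F0.r ≤ v → F0.r ≤ v' →
      (∀ l < F0.l, X.Cons p (X.anc l (F0.h η v') (F0.h ξ v)) l F0.l N.1) →
      X.col p (F0.h ξ v) (F0.h η v') = N.2 := by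
  classical
  obtain ⟨S⟩ := exists_St1 hP hno F0 q0
  have hQ := ccc_pi hPC hP (Fin S.w)
  obtain ⟨t0, ht0, -⟩ := X.hit F0.l S.F.l (fun _ => 0) N S.hl hN
  have hM : 0 < 2 * X.M S.F.l := by omega
  obtain ⟨F, q, hl, hC⟩ := tower hQ S.F S.q (Fin (2 * X.M S.F.l)) (2 * X.M S.F.l)
  obtain ⟨ζ, hζ, ζ', hζ', hlt, r, hr, hr'⟩ :
      ∃ ζ ∈ F.T, ∃ ζ' ∈ F.T, ζ < ζ' ∧ Compat (q ζ) (q ζ') := by
    obtain ⟨a, ha, b, hb, hab, r, h1, h2⟩ := hQ.exists_compat q F.unc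
    rcases lt_or_gt_of_ne hab with h | h
    · exact ⟨a, ha, b, hb, h, r, h1, h2⟩
    · exact ⟨b, hb, a, ha, h, r, h2, h1⟩
  obtain ⟨J0, θ0, C0, ε, hC⟩ := hC
    (fun u => ⟨chg (X.s (F.h ζ u) (F.top ζ')) F.l (X.ρ (F.h ζ u) (F.top ζ') - 1) % (2 * X.M S.F.l),
      Nat.mod_lt _ hM⟩) fun u => X.sg (F.h ζ u) (F.h ζ' u)
  obtain ⟨Ax, f, hf⟩ := S.indep θ0
  obtain ⟨t, ht, c1, c2⟩ := X.hit F0.l S.F.l
    (fun l => (chg f l S.F.l + C0 + ε.toNat + (J0 (Ax l)).val) / 2) N S.hl hN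
  obtain ⟨φ, a, ψ, b, e1, e2, hJ, hC⟩ := hC (2 * t + ε.toNat) (by have := ε.toNat_le; omega)
  obtain ⟨d1, d2⟩ := hC ζ hζ ζ' hζ' hlt (fun u _ => by simp only [bodd_two]; simp)
  have hδ := e1.lt e2 hζ hζ' hlt
  obtain ⟨a1, a2, a3⟩ := e1.1 ζ hζ
  obtain ⟨b1, b2, b3⟩ := e2.1 ζ' hζ'
  generalize a ζ = δ at d1 d2 hδ a1 a2 a3
  generalize b ζ' = δ' at d1 d2 hδ b1 b2 b3
  obtain ⟨u, hu⟩ : ∃ u, ∀ v e, X.state p (F0.h (S.ξ δ) v) (S.F.top δ') S.F.l = some e →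
      ¬ X.Cons p (F0.h (S.η u δ') F0.r) F0.l e.1 e.2.1 := by
    by_contra h
    push Not at h
    choose c e h1 h2 using h
    obtain ⟨i, hi⟩ := S.ncov δ' b1 c
    have h3 : ∀ z ∈ {z | ∃ u, c u = i ∧ z = F0.h (S.η u δ') F0.r}, X.R S.F.l z (S.F.top δ') := by
      rintro _ ⟨u, -, rfl⟩
      rw [← ((S.hy u).1 δ' b1).2.2]
      exact S.F.R_top b1 _
    apply hi
    cases h4 : X.state p (F0.h (S.ξ δ) i) (S.F.top δ') S.F.l with
    | none =>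
      refine cov_of_cons (Θ := ∅) le_rfl h3 ?_
      rintro _ ⟨u, rfl, rfl⟩
      rw [h1 u] at h4
      cases h4
    | some e0 =>
      refine cov_of_cons (Θ := e0.2.1) (state_level h4) h3 ?_
      rintro _ ⟨u, rfl, rfl⟩
      rw [h1 u] at h4
      cases h4
      exact h2 u
  have hξη := (S.hx u).lt (S.hy u) a1 b1 hδ
  obtain ⟨x1, x2, x3⟩ := (S.hx u).1 δ a1
  obtain ⟨y1, y2, y3⟩ := (S.hy u).1 δ' b1
  generalize S.ξ δ = ξ at hu hξη x1 x2 x3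
  generalize S.η u δ' = η at hu hξη y1 y2 y3
  refine ⟨ξ, x1, η, y1, hξη, ⟨r u, ((hr.trans a2) u).trans x2, ((hr'.trans b2) u).trans y2⟩,
    fun v v' hv hv' h5 => ?_⟩
  have g1 : ∀ v, F0.h ξ v < F0.h η v' := fun v => F0.inc ξ x1 η y1 hξη v v' hv'
  have g2 : ¬ X.R S.F.l (F0.h ξ v) (F0.h η v') := by
    rw [← x3, ← y3]
    exact S.F.not_R a1 b1 hδ.ne ((S.hx u).2 v hv) _
  have g3 : X.R S.F.l (F0.h η v') (S.F.top δ') := by
    rw [← y3]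
    exact S.F.R_top b1 _
  have g4 : X.R F.l (F0.h η v') (F.top ζ') := by
    rw [← y3, ← b3]
    exact F.R_top hζ' _
  have g5 : S.F.top δ < F0.h η v' := by
    rw [← y3]
    exact S.F.inc δ a1 δ' b1 hδ _ _ ((S.hy u).2 v' hv')
  have g6 : S.F.r ≤ S.ex (Fin.last _) := (S.hx u).2 _ (Fin.le_last _)
  have g7 : S.F.r ≤ S.ey u (Fin.last _) := (S.hy u).2 _ (Fin.le_last _)
  have key : ∀ l, F0.l ≤ l → l ≤ S.F.l → X.cnt (F0.h ξ v) (F0.h η v') l / 2 ≡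
      (chg f l S.F.l + C0 + ε.toNat + (J0 (Ax l)).val) / 2 + t [MOD X.M S.F.l] := by
    intro l h1 h2
    have k0 : ¬ X.R l (F0.h ξ v) (F0.h η v') := fun h => g2 (h.mono h2)
    obtain ⟨k1, k2, -⟩ := blur ((F0.R_top x1 v).mono h1) ((F0.R_top y1 v').mono h1) (g1 _) k0
    have k3 := (anc_spec k1).1
    have k4 : X.anc l (F0.top ξ) (F0.top η) = S.F.h δ (Ax l) := by
      unfold Fam.top
      rw [← x3, ← y3, S.F.anc_pos a1 b1 hδ.ne h2 g6, (hf u l h2).2.1]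
    unfold cnt
    rw [k2, k4]
    rw [k4] at k3
    have k5 : ¬ X.R F.l (S.F.h δ (Ax l)) (F0.h η v') := by
      rw [← a3, ← y3, ← b3]
      exact F.not_R hζ hζ' hlt.ne (e1.2 _ (hf u l h2).1) _
    have k6 : S.F.h δ (Ax l) < F0.h η v' := k3.1.trans_lt (g1 _)
    have k7 := lt_rho k6.le k5
    have k8 := rho_blur g4 k6.le k5
    refine half_mod (Z := chg (X.s (S.F.h δ (Ax l)) (F.top ζ')) F.l
      (X.ρ (S.F.h δ (Ax l)) (F.top ζ') - 1)) ?_ ?_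
    · rw [chg_add _ h2 (by omega), chg_add _ hl (by omega), ← k8]
      have m1 : chg (X.s (S.F.h δ (Ax l)) (F0.h η v')) l S.F.l = chg f l S.F.l := by
        refine chg_congr fun j j1 j2 => ?_
        rw [s_blur (k3.mono j1) ((F0.R_top y1 v').mono (h1.trans j1)) (g1 _)
          fun h => k5 (h.mono (j2.trans hl))]
        unfold Fam.top
        rw [← x3, ← y3, S.F.s_pos a1 b1 hδ.ne j2 g6 g7 d1, (hf u j j2).2.2]
      have m2 : chg (X.s (S.F.h δ (Ax l)) (F0.h η v')) S.F.l F.l = C0 + (2 * t + ε.toNat) := by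
        rw [← d2]
        exact chg_congr fun j j1 j2 => s_blur ((S.F.R_top a1 _).mono j1) (g3.mono j1) g5
          fun h => k5 (h.mono j2)
      have m3 : chg (X.s (S.F.h δ (Ax l)) (F0.h η v')) F.l (X.ρ (S.F.h δ (Ax l)) (F0.h η v') - 1) =
          chg (X.s (S.F.h δ (Ax l)) (F.top ζ')) F.l (X.ρ (S.F.h δ (Ax l)) (F0.h η v') - 1) :=
        chg_congr fun j j1 j2 => s_blur (R_refl _ _) (g4.mono j1) k6 (not_R (by omega))
      rw [m1, m2, m3]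
      omega
    · rw [← hJ, ← a3]
  refine col_eq S.hl (lt_rho (g1 v).le g2).le ?_ (fun l h1 h2 => ?_) (fun e he => ?_) h5
  · rw [X.per _ _ _ _ S.hl (key _ le_rfl S.hl.le), c1]
  · rw [X.per _ _ _ _ h2 (key _ h1.le h2.le), c2 l h1 h2]
  · rw [state_blur g3 (g1 v) g2] at he
    rw [F0.anc_pos y1 x1 hξη.ne' le_rfl hv', F0.A_top hv' hv]
    exact hu v e he

theorem ccc_KI [Nonempty P] (hPC : PCCC) (hP : CCC P) (H1 : ∀ ξ q, ∃ n, Compat q (p ξ n))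
    (hno : ¬ ∃ f : W1 → ℕ, ∀ ξ η, Compat (p ξ (f ξ)) (p η (f η))) (i : Bool) :
    CCC (X.KI p i) := by
  classical
  intro A hA
  by_contra hunc
  obtain ⟨e, he, heA⟩ := W1_inj hunc
  let B : W1 → Finset W1 := fun ξ => (OrderDual.ofDual (e ξ)).1
  have hB1 : ∀ ξ, X.KK p (B ξ) := fun ξ => (OrderDual.ofDual (e ξ)).2.1
  have hB2 : ∀ ξ, ∀ x ∈ B ξ, ∀ y ∈ B ξ, x < y → X.col p x y = i :=
    fun ξ => (OrderDual.ofDual (e ξ)).2.2
  have h0 : ∀ ξ, ∃ (β : W1) (l : ℕ) (q : P), ξ ≤ β ∧ (∀ x ∈ B ξ, X.R l x β) ∧ X.Wit p (B ξ) q ∧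
      ∀ c ∈ B ξ, ∀ z, X.R (2 * (B ξ).card) z c → ∃ n < l, q ≤ p z n := by
    intro ξ
    obtain ⟨q, hq⟩ := hB1 ξ
    obtain ⟨q', h1, l, h2⟩ := wit_ext H1 ((B ξ).biUnion (X.cl (2 * (B ξ).card))) q
    obtain ⟨β, hβ⟩ := exists_gt_of_countable W1_Iio ((B ξ).countable_toSet.insert ξ)
    obtain ⟨l', h3, h4⟩ := exists_level (X := X) (fun x : B ξ => (x : W1)) β
      (fun x => (hβ x (Or.inr x.2)).le) l
    refine ⟨β, l', q', (hβ ξ (Or.inl rfl)).le, fun x hx => h4 ⟨x, hx⟩, hq.le h1,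
      fun c hc z hz => ?_⟩
    obtain ⟨n, h5, h6⟩ := h2 z (Finset.mem_biUnion.2 ⟨c, hc, mem_cl.2 hz⟩)
    exact ⟨n, h5.trans h3, h6⟩
  choose β lv q0 h01 h02 h03 h04 using h0
  obtain ⟨⟨n, l0⟩, hk⟩ := exists_uncountable_fibre (S := (univ : Set W1)) not_countable_univ
    fun ξ => ((B ξ).card, lv ξ)
  obtain ⟨⟨s0, Θ, N0⟩, hk2⟩ := exists_uncountable_fibre hk
    fun ξ => ((fun k : Fin (l0 + 1) => (B ξ).image (X.sig k)), X.theta l0 (β ξ) (B ξ),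
      (B ξ).image (X.nrm l0))
  obtain ⟨F0, -, f1, rfl, f2, -, -⟩ := exists_fam X hk2 β (fun ζ _ => h01 ζ) l0 (ι := Empty)
    (fun _ i => i.elim) fun _ _ i => i.elim
  have f3 : ∀ ξ ∈ F0.T, (B ξ).card = n ∧ lv ξ = F0.l := fun ξ h => Prod.mk.inj (f1 h).1.2
  have f4 : ∀ ξ ∈ F0.T, (fun k : Fin (F0.l + 1) => (B ξ).image (X.sig k)) = s0 ∧
      X.theta F0.l (β ξ) (B ξ) = Θ ∧ (B ξ).image (X.nrm F0.l) = N0 := fun ξ h => by
    simpa only [Prod.mk.injEq] using (f1 h).2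
  have f5 : ∀ ξ ∈ F0.T, ∀ x ∈ B ξ, X.R F0.l x (F0.top ξ) := fun ξ h x hx => by
    rw [f2 ξ h, ← (f3 ξ h).2]
    exact h02 ξ x hx
  have f6 : ∀ ξ ∈ F0.T, ∀ η ∈ F0.T, ∀ x ∈ B ξ, x ∈ B η ∨ ∃ v, F0.r ≤ v ∧ F0.h ξ v = x := by
    intro ξ hξ η hη x hx
    obtain ⟨v, rfl⟩ := (F0.rng ξ hξ x).1 (f5 ξ hξ x hx)
    rcases lt_or_ge v F0.r with h | h
    · left
      have h1 := Finset.mem_image_of_mem (X.nrm F0.l) hx
      rw [(f4 ξ hξ).2.2, ← (f4 η hη).2.2] at h1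
      obtain ⟨y, hy, h2⟩ := Finset.mem_image.1 h1
      rw [F0.root ξ hξ η hη v h] at h2 ⊢
      exact nrm_inj (f5 η hη y hy) (F0.R_top hη v) h2 ▸ hy
    · exact Or.inr ⟨v, h, rfl⟩
  obtain ⟨ξ0, hξ0⟩ := F0.nonempty
  obtain ⟨ξ, hξ, η, hη, hlt, ⟨r, r1, r2⟩, hc⟩ := cross hPC hP hno F0 q0 (Θ, i)
    ((f4 ξ0 hξ0).2.1 ▸ theta_subset _ _ _)
  refine hA (heA ξ) (heA η) (he.ne hlt.ne) ⟨OrderDual.toDual ⟨B ξ ∪ B η, ⟨r, ?_⟩, ?_⟩,
    Finset.subset_union_left, Finset.subset_union_right⟩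
  · refine wit_union (l := F0.l) (n := n) ((h03 ξ).le r1) ((h03 η).le r2) (fun k hk => ?_)
      (f3 ξ hξ).1.le (f3 η hη).1.le fun c hc z hz => ?_
    · exact congrFun ((f4 ξ hξ).1.trans (f4 η hη).1.symm) ⟨k, by omega⟩
    · rcases Finset.mem_union.1 hc with h | h
      · obtain ⟨j, h1, h2⟩ := h04 ξ c h z ((f3 ξ hξ).1.symm ▸ hz)
        exact ⟨j, (f3 ξ hξ).2 ▸ h1, r1.trans h2⟩
      · obtain ⟨j, h1, h2⟩ := h04 η c h z ((f3 η hη).1.symm ▸ hz)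
        exact ⟨j, (f3 η hη).2 ▸ h1, r2.trans h2⟩
  · intro x hx y hy hxy
    rcases Finset.mem_union.1 hx with hx | hx <;> rcases Finset.mem_union.1 hy with hy | hy
    · exact hB2 ξ x hx y hy hxy
    · rcases f6 ξ hξ η hη x hx with h1 | ⟨v, hv, rfl⟩
      · exact hB2 η x h1 y hy hxy
      rcases f6 η hη ξ hξ y hy with h1 | ⟨v', hv', rfl⟩
      · exact hB2 ξ _ hx y h1 hxy
      refine hc v v' hv hv' fun l hl => ?_
      rw [← (f4 η hη).2.1, ← f2 η hη]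
      exact cons_theta (hB1 η) hy (F0.R_top hη v') (anc_spec (not_R_of_lt hxy)).1 hl.le
    · rcases f6 η hη ξ hξ x hx with h1 | ⟨v, hv, rfl⟩
      · exact hB2 ξ x h1 y hy hxy
      obtain ⟨v', rfl⟩ := (F0.rng ξ hξ y).1 (f5 ξ hξ y hy)
      exact absurd (F0.inc ξ hξ η hη hlt v' v hv) hxy.asymm
    · exact hB2 η x hx y hy hxy

theorem core_of_pccc (hPC : PCCC) : Core := by
  intro P _ _ hP p H1
  by_contra hno
  obtain ⟨X⟩ := exists_Rh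
  have h := hPC _ _ (ccc_KI (X := X) hPC hP H1 hno false) (ccc_KI (X := X) hPC hP H1 hno true)
  let g : ∀ i, W1 → X.KI p i := fun i x => OrderDual.toDual ⟨{x}, KK_singleton x, by simp⟩
  obtain ⟨a, -, b, -, hab, r, h1, h2⟩ := h.exists_compat (fun x => (g false x, g true x))
    (S := univ) not_countable_univ
  have k : ∀ i (r : X.KI p i) a b, r ≤ g i a → r ≤ g i b → a < b → X.col p a b = i :=
    fun i r a b h1 h2 h => (OrderDual.ofDual r).2.2 a (h1 (Finset.mem_singleton_self a)) b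
      (h2 (Finset.mem_singleton_self b)) h
  rcases lt_or_gt_of_ne hab with h3 | h3
  · exact Bool.false_ne_true ((k _ _ _ _ h1.1 h2.1 h3).symm.trans (k _ _ _ _ h1.2 h2.2 h3))
  · exact Bool.false_ne_true ((k _ _ _ _ h2.1 h1.1 h3).symm.trans (k _ _ _ _ h2.2 h1.2 h3))

end Pool.Agent.P.MP_78a647_lc.Full
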