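import Pool.Agent.P.MP_78a647_lc.Full.Code

/-!
Existence of the fixed combinatorial data.
-/

namespace Pool.Agent.P.MP_78a647_lc.Full

open Set

theorem rhex_zero : ∃ r : W1 → W1 → ℕ, (∀ a, r a a = 0) ∧
    (∀ a b c, a ≤ b → b ≤ c → r a c ≤ max (r a b) (r b c)) ∧
    (∀ a b c, a ≤ b → b ≤ c → r a b ≤ max (r a c) (r b c)) ∧
    ∀ l c, {z | z ≤ c ∧ r z c ≤ l}.Finite := by
  classical
  obtain ⟨e, h1, h2⟩ := exists_rho W1_Iio
  let e' : W1 → W1 → ℕ := fun b a => if a = b then 0 else e b a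
  let R : ℕ → W1 → W1 → Prop := fun l a b => ∀ z ≤ a, max (e' a z) l = max (e' b z) l
  have mono : ∀ l l' a b, l ≤ l' → R l a b → R l' a b := fun l l' a b h h' z hz => by
    have := h' z hz
    omega
  have ex : ∀ a b, a ≤ b → ∃ l, R l a b := fun a b h => by
    obtain ⟨l, hl⟩ := (((h2 b a h).insert a).image fun z => max (e' a z) (e' b z)).bddAbove
    refine ⟨l, fun z hz => ?_⟩
    by_cases h3 : z ∈ insert a {α | α ≤ a ∧ e b α ≠ e a α}
    · have : max (e' a z) (e' b z) ≤ l := hl ⟨z, h3, rfl⟩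
      omega
    · simp only [mem_insert_iff, mem_ofPred_eq, not_or, not_and, not_not] at h3
      have h4 : z ≠ b := fun h5 => h3.1 (le_antisymm hz (h5 ▸ h))
      simp only [e', if_neg h3.1, if_neg h4, h3.2 hz]
  have key : ∀ l a b, a ≤ b → (sInf {l | R l a b} ≤ l ↔ R l a b) := fun l a b h =>
    ⟨fun h3 => mono _ _ _ _ h3 (Nat.sInf_mem (s := {l | R l a b}) (ex a b h)),
      fun h3 => Nat.sInf_le h3⟩
  refine ⟨fun a b => sInf {l | R l a b}, fun a => ?_, fun a b c h3 h4 => ?_,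
    fun a b c h3 h4 => ?_, fun l c => ?_⟩
  · exact Nat.le_zero.1 ((key 0 a a le_rfl).2 fun _ _ => rfl)
  · refine (key _ a c (h3.trans h4)).2 fun z hz => ?_
    exact ((key _ a b h3).1 (le_max_left _ _) z hz).trans
      ((key _ b c h4).1 (le_max_right _ _) z (hz.trans h3))
  · refine (key _ a b h3).2 fun z hz => ?_
    exact ((key _ a c (h3.trans h4)).1 (le_max_left _ _) z hz).trans
      ((key _ b c h4).1 (le_max_right _ _) z (hz.trans h3)).symm
  · refine ((h1 c l).insert c).subset fun z hz => ?_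
    have h3 := (key l z c hz.1).1 hz.2 z le_rfl
    by_cases h4 : z = c
    · exact Or.inl h4
    · simp only [e', if_neg h4, if_true] at h3
      exact Or.inr ⟨hz.1, by omega⟩

theorem rhex_rho : ∃ (ρ : W1 → W1 → ℕ) (S : ℕ → ℕ), (∀ a, ρ a a = 0) ∧
    (∀ a b c, a ≤ b → b ≤ c → ρ a c ≤ max (ρ a b) (ρ b c)) ∧
    (∀ a b c, a ≤ b → b ≤ c → ρ a b ≤ max (ρ a c) (ρ b c)) ∧
    (∀ l c, {z | z ≤ c ∧ ρ z c ≤ l}.Finite) ∧
    ∀ l c, {z | z ≤ c ∧ ρ z c ≤ l}.ncard ≤ S l := by
  classical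
  obtain ⟨r, h0, h1, h2, h3⟩ := rhex_zero
  let n : W1 → ℕ → ℕ := fun a j => {z | z ≤ a ∧ r z a ≤ j}.ncard
  have m1 : ∀ a j j', j ≤ j' → n a j ≤ n a j' := fun a j j' h =>
    ncard_le_ncard (fun z hz => ⟨hz.1, hz.2.trans h⟩) (h3 _ _)
  have m0 : ∀ a b j, a ≤ b → r a b ≤ j →
      {z | z ≤ a ∧ r z a ≤ j} ⊆ {z | z ≤ b ∧ r z b ≤ j} := fun a b j h h' z hz =>
    ⟨hz.1.trans h, (h1 z a b hz.1 h).trans (max_le hz.2 h')⟩
  have m2 : ∀ a b j, a ≤ b → r a b ≤ j → n a j ≤ n b j := fun a b j h h' =>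
    ncard_le_ncard (m0 a b j h h') (h3 _ _)
  have m3 : ∀ a b j, a < b → r a b ≤ j → n a j < n b j := fun a b j h h' =>
    ncard_lt_ncard ⟨m0 a b j h.le h', fun h4 =>
      absurd (h4 ⟨le_rfl, (h0 b).trans_le (Nat.zero_le _)⟩).1 h.not_ge⟩ (h3 _ _)
  refine ⟨fun a b => if a = b then 0 else max (r a b) (n a (r a b)), fun l => (l + 1) * (l + 2),
    fun a => if_pos rfl, fun a b c h4 h5 => ?_, fun a b c h4 h5 => ?_, fun l c => ?_,
    fun l c => ?_⟩
  · rcases h4.eq_or_lt with rfl | h4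
    · exact le_max_right _ _
    rcases h5.eq_or_lt with rfl | h5
    · exact le_max_left _ _
    simp only [if_neg h4.ne, if_neg h5.ne, if_neg (h4.trans h5).ne]
    have a1 := h1 a b c h4.le h5.le
    rcases le_or_gt (r a c) (r a b) with a2 | a2
    · have := m1 a _ _ a2
      omega
    · have a3 := m1 a (r a c) (r b c) (by omega)
      have a4 := m2 a b (r b c) h4.le (by omega)
      omega
  · rcases h4.eq_or_lt with rfl | h4
    · simp
    rcases h5.eq_or_lt with rfl | h5
    · exact le_max_left _ _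
    simp only [if_neg h4.ne, if_neg h5.ne, if_neg (h4.trans h5).ne]
    have a1 := h2 a b c h4.le h5.le
    rcases le_or_gt (r a b) (r a c) with a2 | a2
    · have := m1 a _ _ a2
      omega
    · have a3 := m1 a (r a b) (r b c) (by omega)
      have a4 := m2 a b (r b c) h4.le (by omega)
      omega
  · refine (h3 l c).subset fun z hz => ⟨hz.1, ?_⟩
    have : (if z = c then 0 else max (r z c) (n z (r z c))) ≤ l := hz.2
    split_ifs at this with h4
    · rw [h4, h0]
      exact Nat.zero_le _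
    · omega
  · have key : ∀ z, z ≤ c → (if z = c then 0 else max (r z c) (n z (r z c))) ≤ l →
        r z c ≤ l ∧ (z ≠ c → n z (r z c) ≤ l) := fun z _ hz => by
      split_ifs at hz with h4
      · exact ⟨by rw [h4, h0]; exact hz, fun h => absurd h4 h⟩
      · exact ⟨by omega, fun _ => by omega⟩
    have lt : ∀ z z', z < z' → z' ≤ c → (if z = c then 0 else max (r z c) (n z (r z c))) ≤ l →
        r z c = r z' c → (if z = c then l + 1 else n z (r z c)) ≠
          (if z' = c then l + 1 else n z' (r z' c)) := fun z z' h4 h5 h6 h7 => by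
      have a1 := (h4.trans_le h5).ne
      have a2 := (key z (h4.le.trans h5) h6).2 a1
      rw [if_neg a1]
      split_ifs with a3
      · omega
      · have a4 := h2 z z' c h4.le h5
        rw [← h7]
        exact (m3 z z' _ h4 (by omega)).ne
    refine (ncard_le_ncard_of_injOn
      (t := ((Finset.range (l + 1) ×ˢ Finset.range (l + 2) : Finset (ℕ × ℕ)) : Set (ℕ × ℕ)))
      (fun z => (r z c, if z = c then l + 1 else n z (r z c))) (fun z hz => ?_)
      (fun z hz z' hz' h => ?_) (Finset.finite_toSet _)).trans (by simp)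
    · obtain ⟨a1, a2⟩ := key z hz.1 hz.2
      simp only [Finset.coe_product, Finset.coe_range, mem_prod, mem_Iio]
      refine ⟨by omega, ?_⟩
      split_ifs with a3
      · omega
      · have := a2 a3
        omega
    · simp only [Prod.mk.injEq] at h
      rcases lt_trichotomy z z' with a1 | a1 | a1
      · exact absurd h.2 (lt z z' a1 hz'.1 hz.2 h.1)
      · exact a1
      · exact absurd h.2.symm (lt z' z a1 hz.1 hz'.2 h.1.symm)

theorem rhex_sign : ∃ (sg : W1 → W1 → Bool) (lab : W1 → W1 → ℕ),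
    (∀ x y, x ≠ y → sg y x = !sg x y) ∧
    ∀ x y x' y', x ≠ y → x' ≠ y' → lab x y = lab x' y' → sg x y' = sg x y := by
  classical
  obtain ⟨b⟩ : Nonempty (W1 ↪ ℝ) := by
    rw [← Cardinal.le_def, mk_W1, Cardinal.mk_real]
    exact Cardinal.aleph_one_le_continuum
  have h1 : ∀ x y : W1, ∃ q : ℚ, (b x < b y → b x < q ∧ q < b y) ∧
      (b y < b x → b y < q ∧ q < b x) := fun x y => by
    rcases lt_trichotomy (b x) (b y) with h | h | h
    · obtain ⟨q, hq⟩ := exists_rat_btwn h
      exact ⟨q, fun _ => hq, fun h' => absurd h h'.not_gt⟩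
    · exact ⟨0, fun h' => absurd h h'.ne, fun h' => absurd h h'.ne'⟩
    · obtain ⟨q, hq⟩ := exists_rat_btwn h
      exact ⟨q, fun h' => absurd h h'.not_gt, fun _ => hq⟩
  choose q hq using h1
  refine ⟨fun x y => decide (b x < b y), fun x y => Encodable.encode (q x y, decide (b x < b y)),
    fun x y h => ?_, fun x y x' y' h h' e => ?_⟩
  · rcases lt_or_gt_of_ne (b.injective.ne h) with a | a
    · simp [a, a.not_gt]
    · simp [a, a.not_gt]
  · rw [Encodable.encode_inj, Prod.mk.injEq, decide_eq_decide] at e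
    rw [decide_eq_decide]
    rcases lt_or_gt_of_ne (b.injective.ne h) with a | a
    · have a1 := ((hq x y).1 a).1
      have a2 := ((hq x' y').1 (e.2.1 a)).2
      rw [← e.1] at a2
      exact iff_of_true (a1.trans a2) a
    · have a0 : b y' < b x' := lt_of_le_of_ne (not_lt.1 fun c => a.not_gt (e.2.2 c))
        (b.injective.ne h').symm
      have a1 := ((hq x y).2 a).2
      have a2 := ((hq x' y').2 a0).1
      rw [← e.1] at a2
      exact iff_of_false (a2.trans a1).not_gt a.not_gt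

theorem exists_Rh : Nonempty Rh := by
  obtain ⟨ρ, S, a1, a2, a3, a4, a5⟩ := rhex_rho
  obtain ⟨sg, lab, b1, b2⟩ := rhex_sign
  obtain ⟨cd, M, c1, c2⟩ := exists_code S
  exact ⟨⟨ρ, S, sg, lab, cd, M, a1, a2, a3, a4, a5, b1, b2, c1, c2⟩⟩

end Pool.Agent.P.MP_78a647_lc.Full
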